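import Pool.Agent.Lib.MP_528c50_co.Cs3.Nod

/-! Prime sets: inseparability and distance-hereditary graphs. -/

namespace Pool.Agent.Lib.MP_528c50_co.Cs

variable {K : Type} [Finite K] {X : SimpleGraph K} {S : Set K}

theorem Prm.nontriv (h : Prm X S) (a b : K) : (S \ {a, b}).Nontrivial := by
  have h1 := Set.ncard_le_ncard_sdiff_add_ncard S {a, b}
  have h2 : ({a, b} : Set K).ncard ≤ 2 := (Set.ncard_insert_le a {b}).trans (by simp)
  have h3 := h.1
  exact (Set.one_lt_ncard_iff_nontrivial).1 (by omega)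

omit [Finite K] in
theorem Prm.no (h : Prm X S) {A : Set K} (h0 : A ⊆ S) (h1 : Spl X S A) (h2 : A.Nontrivial)
    (h3 : (S \ A).Nontrivial) : False :=
  (h.2 A h0 h1).elim h2.not_subsingleton h3.not_subsingleton

/-- Every vertex of a prime set has two neighbours in it. -/
theorem Prm.two (h : Prm X S) {x : K} (hx : x ∈ S) (n : K) : ∃ b ∈ S, b ≠ n ∧ X.Adj x b := by
  by_contra hn
  obtain ⟨m, hm, mx, e⟩ : ∃ m ∈ S, m ≠ x ∧ ∀ b ∈ S, X.Adj x b → b = m := by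
    by_cases a : n ∈ S ∧ X.Adj x n
    · exact ⟨n, a.1, a.2.ne', fun b p q => not_not.1 fun r => hn ⟨b, p, r, q⟩⟩
    · obtain ⟨m, p, q⟩ := (h.nontriv x x).nonempty.imp fun m p => And.intro p.1 p.2
      exact ⟨m, p, fun r => q (Or.inl r), fun b s t =>
        (a ((not_not.1 fun r => hn ⟨b, s, r, t⟩ : b = n) ▸ ⟨s, t⟩)).elim⟩
  refine h.no (A := {x, m}) (by rintro _ (rfl | rfl) <;> assumption) ?_
    (Set.nontrivial_pair mx.symm) (h.nontriv x m)
  rintro a (rfl | p) a' (rfl | p') b q b' q' f f'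
  · exact f'
  · exact (q.2 (Or.inr (e b q.1 f))).elim
  · exact (q'.2 (Or.inr (e b' q'.1 f'))).elim
  · exact (show a' = a from p'.trans p.symm) ▸ f'

theorem Prm.insep (h : Prm X S) {x y : K} (hx : x ∈ S) (hy : y ∈ S) : Insep X x y := by
  intro w wx wy
  refine Av.walk (not_not.1 fun hn => ?_) wx.symm
  have st : ∀ a b, Av X (some w) x a → X.Adj a b → b ≠ w → Av X (some w) x b := fun a b p e q =>
    p.step e (by simpa using p.ne wx.symm) (by simpa using q)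
  obtain ⟨x', x1, x2, x3⟩ := h.two hx w
  refine h.no (A := {z | z ∈ S ∧ Av X (some w) x z}) (fun _ a => a.1) ?_
    ⟨x, ⟨hx, .refl⟩, x', ⟨x1, st x x' .refl x3 x2⟩, x3.ne⟩ ?_
  · intro a p a' p' b q b' q' e e'
    rwa [show b' = w from not_not.1 fun r => q'.2 ⟨q'.1, st a' b' p'.2 e' r⟩,
      ← show b = w from not_not.1 fun r => q.2 ⟨q.1, st a b p.2 e r⟩]
  · obtain ⟨y', y1, y2, y3⟩ := h.two hy w
    exact ⟨y, ⟨hy, fun r => hn r.2⟩, y', ⟨y1, fun r => hn (st y' y r.2 y3.symm wy.symm)⟩, y3.ne⟩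

/-- Walks between vertices at distance two pass through a common neighbour. -/
def Dh (X : SimpleGraph K) : Prop :=
  ∀ u v w, u ≠ v → ¬ X.Adj u v → X.Adj u w → X.Adj w v → ∀ p : X.Walk u v,
    ∃ z ∈ p.support, X.Adj u z ∧ X.Adj z v

omit [Finite K] in
theorem dh_of_dist (h : ∀ u v (p : X.Walk u v), ∃ q : X.Walk u v,
    q.length = X.dist u v ∧ ∀ z ∈ q.support, z ∈ p.support) : Dh X := by
  intro u v w uv n e e' p
  obtain ⟨q, h1, h2⟩ := h u v p
  have h3 := X.dist_le (SimpleGraph.Walk.cons e (.cons e' .nil))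
  rw [← h1] at h3
  match q, h2, h3 with
  | .nil, _, _ => exact (uv rfl).elim
  | .cons a .nil, _, _ => exact (n a).elim
  | .cons a (.cons b .nil), h2, _ => exact ⟨_, h2 _ (by simp), a, b⟩
  | .cons _ (.cons _ (.cons _ _)), _, h3 => simp at h3

theorem Prm.not_dh (h : Prm X S) (hd : Dh X) : False := by
  obtain ⟨r, hr, x₀, hx₀, n₀, n₁⟩ : ∃ r ∈ S, ∃ x ∈ S, x ≠ r ∧ ¬ X.Adj r x := by
    by_contra hn
    obtain ⟨a, p, b, q, e⟩ : S.Nontrivial :=
      (Set.one_lt_ncard_iff_nontrivial).1 (lt_of_lt_of_le (by norm_num) h.1)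
    refine h.no (A := {a, b}) (by rintro _ (rfl | rfl); exacts [p, q]) ?_
      (Set.nontrivial_pair e) (h.nontriv a b)
    intro u s _ _ _ _ v t _ _
    have uS : u ∈ S := by rcases s with rfl | rfl; exacts [p, q]
    exact not_not.1 fun f => hn ⟨u, uS, v, t.1, fun g => t.2 (g ▸ s), f⟩
  obtain ⟨R, hR⟩ : ∃ R : Set K, ∀ x, x ∈ R ↔ x ∈ S ∧ x ≠ r ∧ ¬ X.Adj r x := ⟨{x | _}, fun _ => Iff.rfl⟩
  have rR : r ∉ R := fun a => ((hR r).1 a).2.1 rfl
  have ind : ∀ x ∈ R, ∀ y ∈ R, ¬ X.Adj x y := by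
    intro x hx y hy e
    obtain ⟨A, hA⟩ : ∃ A : Set K, ∀ z, z ∈ A ↔ ∃ p : X.Walk x z, ∀ u ∈ p.support, u ∈ R :=
      ⟨{z | _}, fun _ => Iff.rfl⟩
    have AR : A ⊆ R := fun z a => ((hA z).1 a).elim fun p b => b z p.end_mem_support
    have st : ∀ a ∈ A, ∀ b ∈ R, X.Adj a b → b ∈ A := fun a p b q f => by
      obtain ⟨w, hw⟩ := (hA a).1 p
      refine (hA b).2 ⟨w.concat f, fun u hu => ?_⟩
      rw [SimpleGraph.Walk.support_concat, List.mem_append, List.mem_singleton] at hu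
      exact hu.elim (hw u) fun g => g ▸ q
    have xA : x ∈ A := (hA x).2 ⟨.nil, by simpa using hx⟩
    have out : ∀ a ∈ A, ∀ b ∈ S \ A, X.Adj a b → X.Adj r b := fun a p b q f => by
      by_contra g
      refine q.2 (st a p b ((hR b).2 ⟨q.1, fun t => ((hR a).1 (AR p)).2.2 ?_, g⟩) f)
      exact t ▸ f.symm
    obtain ⟨b₀, b1, -, b2⟩ := h.two hr r
    refine h.no (fun z a => ((hR z).1 (AR a)).1) (fun a p a' p' b q b' q' f f' => ?_)
      ⟨x, xA, y, st x xA y hy e, e.ne⟩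
      ⟨r, ⟨hr, fun a => rR (AR a)⟩, b₀, ⟨b1, fun a => ((hR _).1 (AR a)).2.2 b2⟩, b2.ne⟩
    obtain ⟨w, hw⟩ := (hA a).1 p
    obtain ⟨w', hw'⟩ := (hA a').1 p'
    have aR := (hR a).1 (AR p)
    obtain ⟨z, z1, z2, z3⟩ := hd r a b aR.2.1.symm aR.2.2 (out a p b q f) f.symm
      (.cons (out a' p' b' q' f') (.cons f'.symm (w'.reverse.append w)))
    simp only [SimpleGraph.Walk.support_cons, List.mem_cons, SimpleGraph.Walk.mem_support_append_iff,
      SimpleGraph.Walk.support_reverse, List.mem_reverse] at z1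
    rcases z1 with rfl | rfl | t | t
    · exact (z2.ne rfl).elim
    · exact z3.symm
    · exact (((hR z).1 (hw' z t)).2.2 z2).elim
    · exact (((hR z).1 (hw z t)).2.2 z2).elim
  obtain ⟨x, hx, hm⟩ := Set.exists_min_image R (fun x => {b | b ∈ S ∧ X.Adj x b}.ncard)
    (Set.toFinite R) ⟨x₀, (hR _).2 ⟨hx₀, n₀, n₁⟩⟩
  have xR := (hR x).1 hx
  have nb : ∀ y ∈ R, ∀ b ∈ S, X.Adj y b → X.Adj r b := fun y hy b p f => by
    by_contra g
    exact ind y hy b ((hR b).2 ⟨p, fun t => ((hR y).1 hy).2.2 (t ▸ f.symm), g⟩) f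
  obtain ⟨a₁, p1, -, q1⟩ := h.two xR.1 x
  obtain ⟨a₂, p2, q2, q3⟩ := h.two xR.1 a₁
  refine h.no (A := {b | b ∈ S ∧ X.Adj x b}) (fun _ a => a.1) (fun a p a' p' _ _ z q _ f => ?_)
    ⟨a₂, ⟨p2, q3⟩, a₁, ⟨p1, q1⟩, q2⟩
    ⟨x, ⟨xR.1, fun a => a.2.ne rfl⟩, r, ⟨hr, fun a => xR.2.2 a.2.symm⟩, xR.2.1⟩
  have ra := nb x hx a p.1 p.2
  rcases eq_or_ne z r with rfl | zr
  · exact ra.symm
  rcases eq_or_ne z x with rfl | zx
  · exact p.2.symm
  have xz : ¬ X.Adj x z := fun t => q.2 ⟨q.1, t⟩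
  by_contra az
  by_cases rz : X.Adj r z
  · obtain ⟨u, u1, u2, u3⟩ := hd x z a' zx.symm xz p'.2 f (.cons p.2 (.cons ra.symm (.cons rz .nil)))
    simp only [SimpleGraph.Walk.support_cons, SimpleGraph.Walk.support_nil, List.mem_cons,
      List.not_mem_nil, or_false] at u1
    rcases u1 with rfl | rfl | rfl | rfl
    · exact u2.ne rfl
    · exact az u3
    · exact xR.2.2 u2.symm
    · exact u3.ne rfl
  have zR := (hR z).2 ⟨q.1, zr, rz⟩
  obtain ⟨c, c1, c2⟩ : ∃ c, (c ∈ S ∧ X.Adj z c) ∧ ¬ X.Adj x c := by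
    by_contra t
    refine (hm z zR).not_gt (Set.ncard_lt_ncard ⟨fun c s => ⟨s.1, not_not.1 fun v => t ⟨c, s, v⟩⟩,
      fun s => az (s p).2.symm⟩ (Set.toFinite _))
  obtain ⟨u, u1, u2, u3⟩ := hd x z a' zx.symm xz p'.2 f
    (.cons p.2 (.cons ra.symm (.cons (nb z zR c c1.1 c1.2) (.cons c1.2.symm .nil))))
  simp only [SimpleGraph.Walk.support_cons, SimpleGraph.Walk.support_nil, List.mem_cons,
    List.not_mem_nil, or_false] at u1
  rcases u1 with rfl | rfl | rfl | rfl | rfl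
  · exact u2.ne rfl
  · exact az u3
  · exact xR.2.2 u2.symm
  · exact c2 u2
  · exact u3.ne rfl

end Pool.Agent.Lib.MP_528c50_co.Cs
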