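import Pool.Agent.Lib.MP_528c50_co.Cs3.Cls

/-! Uniqueness of transitive orientations; interval graphs and permutation graphs. -/

namespace Pool.Agent.Lib.MP_528c50_co.Cs

variable {K : Type} {X : SimpleGraph K} {S : Set K} {O O' : K → K → Prop}

variable (X S) in
/-- No proper module with two vertices. -/
def Mp : Prop :=
  ∀ M ⊆ S, (∀ z ∈ S, z ∉ M → ∀ a ∈ M, ∀ b ∈ M, X.Adj z a → X.Adj z b) → M.Subsingleton ∨ S ⊆ M

variable (X S O) in
/-- A transitive orientation. -/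
structure Ori : Prop where
  adj : ∀ a ∈ S, ∀ b ∈ S, X.Adj a b ↔ O a b ∨ O b a
  tr : ∀ a ∈ S, ∀ b ∈ S, ∀ c ∈ S, O a b → O b c → O a c

theorem Ori.flip (h : Ori X S O) : Ori X S fun a b => O b a :=
  ⟨fun a p b q => (h.adj a p b q).trans or_comm, fun a p b q c r e f => h.tr c r b q a p f e⟩

theorem Ori.asymm (h : Ori X S O) {a b : K} (p : a ∈ S) (q : b ∈ S) (e : O a b) : ¬ O b a :=
  fun f => ((h.adj a p a p).2 (Or.inl (h.tr a p b q a p e f))).ne rfl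

theorem Mp.compl (h : Mp X S) : Mp Xᶜ S := fun M h0 hM => h M h0 fun z p q a r b s e =>
  not_not.1 fun n => (hM z p q b s a r ⟨fun t => q (t ▸ s), n⟩).2 e

theorem Mp.span (h : Mp X S) {v y : K} (hv : v ∈ S) (hy : y ∈ S) (e : X.Adj v y)
    (P : K → K → Prop) (h0 : P v y)
    (h1 : ∀ a ∈ S, ∀ b ∈ S, ∀ c ∈ S, X.Adj a c → ¬ X.Adj b c → P a b → P a c)
    (h2 : ∀ a ∈ S, ∀ b ∈ S, ∀ c ∈ S, X.Adj c b → ¬ X.Adj a c → P a b → P c b) :
    ∀ x ∈ S, ∃ a ∈ S, ∃ b ∈ S, P a b ∧ (a = x ∨ b = x) := by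
  let st : K × K → K × K → Prop := fun p q => q.1 ∈ S ∧ q.2 ∈ S ∧ X.Adj q.1 q.2 ∧
    (p.1 = q.1 ∧ ¬ X.Adj p.2 q.2 ∨ p.2 = q.2 ∧ ¬ X.Adj p.1 q.1)
  have base : ∀ p, Relation.ReflTransGen st (v, y) p →
      p.1 ∈ S ∧ p.2 ∈ S ∧ X.Adj p.1 p.2 ∧ P p.1 p.2 := by
    intro p hp
    induction hp with
    | refl => exact ⟨hv, hy, e, h0⟩
    | @tail p q _ s ih =>
      refine ⟨s.1, s.2.1, s.2.2.1, ?_⟩
      rcases s.2.2.2 with t | t
      · exact h1 _ s.1 _ ih.2.1 _ s.2.1 s.2.2.1 t.2 (t.1 ▸ ih.2.2.2)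
      · exact h2 _ ih.1 _ s.2.1 _ s.1 s.2.2.1 t.2 (t.1 ▸ ih.2.2.2)
  obtain ⟨M, hM⟩ : ∃ M : Set K, ∀ x, x ∈ M ↔
    ∃ p, Relation.ReflTransGen st (v, y) p ∧ (p.1 = x ∨ p.2 = x) := ⟨{x | _}, fun _ => Iff.rfl⟩
  have key := h M (fun x a => by
    obtain ⟨p, b, rfl | rfl⟩ := (hM x).1 a
    exacts [(base p b).1, (base p b).2.1]) (by
    intro z hz zM
    have f1 : ∀ p, Relation.ReflTransGen st (v, y) p → (X.Adj z p.1 ↔ X.Adj z p.2) := fun p b => by
      refine ⟨fun t => not_not.1 fun n => zM ((hM z).2 ⟨(p.1, z), b.tail ?_, Or.inr rfl⟩),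
        fun t => not_not.1 fun n => zM ((hM z).2 ⟨(z, p.2), b.tail ?_, Or.inl rfl⟩)⟩
      · exact ⟨(base p b).1, hz, t.symm, Or.inl ⟨rfl, fun u => n u.symm⟩⟩
      · exact ⟨hz, (base p b).2.1, t, Or.inr ⟨rfl, fun u => n u.symm⟩⟩
    have f2 : ∀ p, Relation.ReflTransGen st (v, y) p → (X.Adj z p.1 ↔ X.Adj z v) := by
      intro p hp
      induction hp with
      | refl => rfl
      | @tail p q b s ih =>
        rcases s.2.2.2 with t | t
        · rwa [← t.1]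
        · rwa [f1 q (b.tail s), ← t.1, ← f1 p b]
    have f3 : ∀ a ∈ M, (X.Adj z a ↔ X.Adj z v) := fun a m => by
      obtain ⟨p, b, rfl | rfl⟩ := (hM a).1 m
      exacts [f2 p b, (f1 p b).symm.trans (f2 p b)]
    exact fun a p b q t => (f3 b q).2 ((f3 a p).1 t))
  intro x hx
  obtain ⟨p, b, t⟩ := (hM x).1 (key.resolve_left (fun s => e.ne
    (s ((hM v).2 ⟨_, .refl, Or.inl rfl⟩) ((hM y).2 ⟨_, .refl, Or.inr rfl⟩))) hx)
  exact ⟨_, (base p b).1, _, (base p b).2.1, (base p b).2.2.2, t⟩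

theorem Ori.force (h : Ori X S O) {a b c : K} (p : a ∈ S) (q : b ∈ S) (r : c ∈ S) (e : X.Adj a c)
    (n : ¬ X.Adj b c) (f : O a b) : O a c :=
  ((h.adj a p c r).1 e).resolve_right fun t => n ((h.adj b q c r).2 (Or.inr (h.tr c r a p b q t f)))

theorem Mp.tri (h : Mp X S) (h1 : Ori X S O) (h2 : Ori X S O') {v y x : K} (hv : v ∈ S) (hy : y ∈ S)
    (hx : x ∈ S) (a1 : O v y) (a2 : O' y v) (a3 : O x v) (a4 : O' x v) (a5 : O x y) (a6 : O' x y) :
    False := by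
  obtain ⟨a, p, b, q, ⟨-, -, c3, -, c5, -⟩, rfl | rfl⟩ := h.span hv hy ((h1.adj v hv y hy).2 (Or.inl a1))
    (fun a b => O a b ∧ O' b a ∧ O x a ∧ O' x a ∧ O x b ∧ O' x b) ⟨a1, a2, a3, a4, a5, a6⟩
    (fun a p b q c r e n ⟨b1, b2, b3, b4, _, b6⟩ => by
      have d1 := h1.force p q r e n b1
      have d2 := h1.tr x hx a p c r b3 d1
      exact ⟨d1, h2.flip.force p q r e n b2, b3, b4, d2,
        h2.force hx q r ((h1.adj x hx c r).2 (Or.inl d2)) n b6⟩)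
    (fun a p b q c r e n ⟨b1, b2, b3, _, b5, b6⟩ => by
      have d1 := h2.force q p r e.symm n b2
      have d2 := h2.tr x hx b q c r b6 d1
      exact ⟨h1.flip.force q p r e.symm n b1, d1,
        h1.force hx p r ((h2.adj x hx c r).2 (Or.inl d2)) n b3, d2, b5, b6⟩) x hx
  · exact h1.asymm p p c3 c3
  · exact h1.asymm q q c5 c5

/-- Gallai: a prime graph has at most two transitive orientations. -/
theorem Mp.gallai (h : Mp X S) (h1 : Ori X S O) (h2 : Ori X S O') :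
    (∀ a ∈ S, ∀ b ∈ S, O a b ↔ O' a b) ∨ ∀ a ∈ S, ∀ b ∈ S, O a b ↔ O' b a := by
  have ex : ∀ {O'}, Ori X S O' → ¬ (∀ a ∈ S, ∀ b ∈ S, O a b ↔ O' a b) →
      ∃ a ∈ S, ∃ b ∈ S, O a b ∧ O' b a := by
    intro O' h2 n
    by_contra t
    refine n fun a p b q => ⟨fun e => ?_, fun e => ?_⟩
    · exact ((h2.adj a p b q).1 ((h1.adj a p b q).2 (Or.inl e))).resolve_right
        fun f => t ⟨a, p, b, q, e, f⟩
    · exact ((h1.adj a p b q).1 ((h2.adj a p b q).2 (Or.inl e))).resolve_right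
        fun f => t ⟨b, q, a, p, f, e⟩
  by_contra hn
  obtain ⟨v, hv, y, hy, e, e'⟩ := ex h2 fun t => hn (Or.inl t)
  obtain ⟨u, hu, w, hw, f, f'⟩ := ex h2.flip fun t => hn (Or.inr t)
  obtain ⟨a, p, b, q, ⟨c, c'⟩, rfl | rfl⟩ := h.span hv hy ((h1.adj v hv y hy).2 (Or.inl e))
    (fun a b => O a b ∧ O' b a) ⟨e, e'⟩
    (fun a p b q c r e n t => ⟨h1.force p q r e n t.1, h2.flip.force p q r e n t.2⟩)
    (fun a p b q c r e n t => ⟨h1.flip.force q p r e.symm n t.1, h2.force q p r e.symm n t.2⟩) u hu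
  · have d := h2.tr b q a p w hw c' f'
    rcases (h1.adj b q w hw).1 ((h2.adj b q w hw).2 (Or.inl d)) with t | t
    · exact h.tri h1.flip h2.flip q p hw c c' t d f f'
    · exact h.tri h1.flip h2 hw p q f f' t d c c'
  · have d := h1.tr a p b q w hw c f
    rcases (h2.adj a p w hw).1 ((h1.adj a p w hw).2 (Or.inl d)) with t | t
    · exact h.tri h1.flip h2.flip q p hw c c' f f' d t
    · exact h.tri h1 h2.flip q hw p f f' c c' d t

theorem Ori.comap (h : Ori X S O) {g : K → K} (hg : Set.MapsTo g S S)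
    (e : ∀ a b, X.Adj (g a) (g b) ↔ X.Adj a b) : Ori X S fun a b => O (g a) (g b) :=
  ⟨fun a p b q => (e a b).symm.trans (h.adj _ (hg p) _ (hg q)),
    fun _ p _ q _ r => h.tr _ (hg p) _ (hg q) _ (hg r)⟩

/-- Two automorphisms that both keep or both do not keep the orientation induce the same one. -/
theorem Mp.same (h : Mp X S) (h1 : Ori X S O) {g g' : K → K} (hg : Set.MapsTo g S S)
    (e : ∀ a b, X.Adj (g a) (g b) ↔ X.Adj a b) (hg' : Set.MapsTo g' S S)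
    (e' : ∀ a b, X.Adj (g' a) (g' b) ↔ X.Adj a b)
    (s : (∀ a ∈ S, ∀ b ∈ S, O a b ↔ O (g a) (g b)) ↔ ∀ a ∈ S, ∀ b ∈ S, O a b ↔ O (g' a) (g' b)) :
    ∀ a ∈ S, ∀ b ∈ S, O (g a) (g b) ↔ O (g' a) (g' b) := by
  intro a p b q
  by_cases t : ∀ a ∈ S, ∀ b ∈ S, O a b ↔ O (g a) (g b)
  · exact (t a p b q).symm.trans (s.1 t a p b q)
  · exact ((h.gallai h1 (h1.comap hg e)).resolve_left t b q a p).symm.trans
      ((h.gallai h1 (h1.comap hg' e')).resolve_left (mt s.2 t) b q a p)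

variable [Finite K]

theorem rank_eq {φ : K → ℝ} {g g' : K → K} (hg : Set.BijOn g S S) (hg' : Set.BijOn g' S S)
    {t t' : ℝ} (h : ∀ y ∈ S, φ (g y) < t ↔ φ (g' y) < t') : ∀ y ∈ S, φ y < t ↔ φ y < t' := by
  have cnt : ∀ {g : K → K}, Set.BijOn g S S → ∀ t : ℝ,
      {y | y ∈ S ∧ φ (g y) < t}.ncard = {y | y ∈ S ∧ φ y < t}.ncard := fun {g} hg t =>
    Set.ncard_congr (fun y _ => g y) (fun y a => ⟨hg.1 a.1, a.2⟩)
      (fun a b p q e => hg.2.1 p.1 q.1 e) fun y a => by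
        obtain ⟨z, b, rfl⟩ := hg.2.2 a.1
        exact ⟨z, ⟨b, a.2⟩, rfl⟩
  have e : {y | y ∈ S ∧ φ y < t}.ncard = {y | y ∈ S ∧ φ y < t'}.ncard := by
    rw [← cnt hg, ← cnt hg']
    exact congrArg _ (Set.ext fun y => and_congr_right (h y))
  have f : {y | y ∈ S ∧ φ y < t} = {y | y ∈ S ∧ φ y < t'} := by
    rcases le_total t t' with a | a
    · exact Set.eq_of_subset_of_ncard_le (fun y b => ⟨b.1, b.2.trans_le a⟩) e.ge
    · refine (Set.eq_of_subset_of_ncard_le ?_ e.le).symm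
      exact fun y b => ⟨b.1, b.2.trans_le a⟩
  intro y hy
  simpa [hy] using Set.ext_iff.1 f y

/-- The vertices of a prime set that are not joined to all others. -/
theorem Prm.mp (h : Prm X S) : ∃ T : Set K, Mp X T ∧ (∀ a b, ∃ c ∈ T, c ≠ a ∧ c ≠ b) ∧
    ∀ g : X ≃g X, g '' S = S → Set.BijOn g T T ∧ ∀ x ∈ S, g x ≠ x → x ∈ T := by
  obtain ⟨U, hU⟩ : ∃ U : Set K, ∀ x, x ∈ U ↔ x ∈ S ∧ ∀ y ∈ S, y ≠ x → X.Adj x y :=
    ⟨{x | _}, fun _ => Iff.rfl⟩
  have sub : U.Subsingleton := fun a p b q => not_not.1 fun n => by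
    have m : ∀ u ∈ ({a, b} : Set K), u ∈ U := by rintro _ (rfl | rfl) <;> assumption
    exact h.no (fun u s => ((hU u).1 (m u s)).1) (fun u s _ _ _ _ v t _ _ =>
      ((hU u).1 (m u s)).2 v t.1 fun r => t.2 (r ▸ s)) (Set.nontrivial_pair n) (h.nontriv a b)
  refine ⟨S \ U, fun M h0 hM => (em M.Subsingleton).imp_right fun n z hz => not_not.1 fun zM => ?_,
    fun a b => ?_, fun g hg => ?_⟩
  · have md : ∀ z ∈ S, z ∉ M → ∀ a ∈ M, ∀ b ∈ M, X.Adj z a → X.Adj z b := fun z p q a r b s e => by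
      by_cases u : z ∈ U
      · exact ((hU z).1 u).2 b (h0 s).1 fun t => q (t ▸ s)
      · exact hM z ⟨p, u⟩ q a r b s e
    have s := (h.2 M (fun _ a => (h0 a).1) fun a p a' p' _ _ b q _ e =>
      (md b q.1 q.2 a' p' a p e.symm).symm).resolve_left n
    have mem : ∀ y ∈ S, y ≠ z → y ∈ M := fun y p q => not_not.1 fun r => q (s ⟨p, r⟩ ⟨hz.1, zM⟩)
    obtain ⟨b, b1, -, b2⟩ := h.two hz.1 z
    exact hz.2 ((hU z).2 ⟨hz.1, fun y p q => md z hz.1 zM b (mem b b1 b2.ne') y (mem y p q) b2⟩)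
  · obtain ⟨c, p, d, q, e⟩ := h.nontriv a b
    by_cases u : c ∈ U
    · exact ⟨d, ⟨q.1, fun v => e (sub u v)⟩, fun r => q.2 (Or.inl r), fun r => q.2 (Or.inr r)⟩
    · exact ⟨c, ⟨p.1, u⟩, fun r => p.2 (Or.inl r), fun r => p.2 (Or.inr r)⟩
  · have m : ∀ x, g x ∈ S ↔ x ∈ S := fun x => by
      conv_lhs => rw [← hg]
      exact g.injective.mem_set_image
    have fx : ∀ x ∈ U, g x = x := fun x u => sub ((hU _).2 ⟨(m x).2 ((hU x).1 u).1, fun y p q => by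
      obtain ⟨y, rfl⟩ := g.surjective y
      exact g.map_rel_iff.2 (((hU x).1 u).2 y ((m y).1 p) fun r => q (congrArg g r))⟩) u
    have m' : ∀ x, g x ∈ S \ U ↔ x ∈ S \ U := fun x => and_congr (m x) (not_congr
      ⟨fun u => g.injective (fx _ u) ▸ u, fun u => (fx x u).symm ▸ u⟩)
    refine ⟨⟨fun x a => (m' x).2 a, g.injective.injOn, fun y a => ?_⟩,
      fun x p q => ⟨p, fun u => q (fx x u)⟩⟩
    obtain ⟨y, rfl⟩ := g.surjective y
    exact ⟨y, (m' y).1 a, rfl⟩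

theorem Prm.bound (h : Prm X S) {T : Type} [Fintype T] (sg : Set K → (K → K) → T)
    (hs : ∀ S', Mp X S' → (∀ a b, ∃ c ∈ S', c ≠ a ∧ c ≠ b) → ∀ g g' : X ≃g X, Set.BijOn g S' S' →
      Set.BijOn g' S' S' → sg S' g = sg S' g' → ∀ x ∈ S', g x = g' x)
    (r : ℕ) (x : Fin r → K) (hx : ∀ i, x i ∈ S)
    (hg : ∀ i, ∃ g : X ≃g X, g '' S = S ∧ (∀ j < i, g (x j) = x j) ∧ g (x i) ≠ x i) :
    r + 1 ≤ Fintype.card T := by
  obtain ⟨S', h1, h2, h3⟩ := h.mp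
  choose g g1 g2 g3 using hg
  obtain ⟨G, G1, G2⟩ : ∃ G : Option (Fin r) → X ≃g X, (∀ i, G (some i) = g i) ∧
      ∀ z, G none z = z := ⟨fun o => o.elim .refl g, fun _ => rfl, fun _ => rfl⟩
  have b : ∀ o, Set.BijOn (G o) S' S' := by
    rintro (_ | i)
    · exact (Set.bijOn_id S').congr fun z _ => (G2 z).symm
    · exact G1 i ▸ (h3 _ (g1 i)).1
  have m : ∀ i, x i ∈ S' := fun i => (h3 _ (g1 i)).2 _ (hx i) (g3 i)
  have inj : Function.Injective fun o => sg S' (G o) := fun o o' e => by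
    have t := hs S' h1 h2 _ _ (b o) (b o') e
    rcases o with _ | i <;> rcases o' with _ | j
    · rfl
    · exact (g3 j (by rw [← G1, ← t _ (m j), G2])).elim
    · exact (g3 i (by rw [← G1, t _ (m i), G2])).elim
    · rw [G1, G1] at t
      rcases lt_trichotomy i j with c | c | c
      · exact (g3 i ((t _ (m i)).trans (g2 j i c))).elim
      · rw [c]
      · exact (g3 j ((t _ (m j)).symm.trans (g2 i j c))).elim
  simpa using Fintype.card_le_of_injective _ inj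

omit [Finite K] in
theorem iso_compl (g : X ≃g X) (a b : K) : Xᶜ.Adj (g a) (g b) ↔ Xᶜ.Adj a b :=
  and_congr g.injective.ne_iff (not_congr g.map_rel_iff)

theorem Prm.interval (h : Prm X S) {lo hi : K → ℝ} (h0 : ∀ a, lo a ≤ hi a)
    (hX : ∀ a b, X.Adj a b ↔ a ≠ b ∧ lo a ≤ hi b ∧ lo b ≤ hi a)
    (r : ℕ) (x : Fin r → K) (hx : ∀ i, x i ∈ S)
    (hg : ∀ i, ∃ g : X ≃g X, g '' S = S ∧ (∀ j < i, g (x j) = x j) ∧ g (x i) ≠ x i) : r ≤ 1 := by
  have := h.bound (fun S' g => ∀ a ∈ S', ∀ b ∈ S', hi a < lo b ↔ hi (g a) < lo (g b))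
    (fun S' h1 h2 g g' b b' e y hy => ?_) r x hx hg
  · simpa using this
  have o : Ori Xᶜ S' fun a b => hi a < lo b := by
    refine ⟨fun a _ b _ => ?_, fun a _ b _ c _ p q => (p.trans_le (h0 b)).trans q⟩
    rw [SimpleGraph.compl_adj, hX]
    constructor
    · rintro ⟨p, q⟩
      by_contra t
      rw [not_or, not_lt, not_lt] at t
      exact q ⟨p, t.2, t.1⟩
    · rintro (p | p)
      · exact ⟨fun t => (t ▸ h0 a).not_gt (t ▸ p), fun t => t.2.2.not_gt p⟩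
      · exact ⟨fun t => (t ▸ h0 a).not_gt (t ▸ p), fun t => t.2.1.not_gt p⟩
  have s := h1.compl.same o b.1 (iso_compl g) b'.1 (iso_compl g') (iff_of_eq e)
  have r1 := rank_eq (φ := hi) b b' fun z hz => s z hz y hy
  have r2 := rank_eq (φ := fun z => - lo z) (t := - hi (g y)) (t' := - hi (g' y)) b b'
    fun z hz => by simpa using s y hy z hz
  simp only [neg_lt_neg_iff] at r2
  by_contra n
  have m : ∀ u ∈ ({g y, g' y} : Set K), u ∈ S' := by
    rintro _ (rfl | rfl)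
    exacts [b.1 hy, b'.1 hy]
  rcases h1.compl {g y, g' y} m (fun z p _ u s v t => by
    rw [o.adj z p u (m u s), o.adj z p v (m v t)]
    rcases s with rfl | rfl <;> rcases t with rfl | rfl
    · exact id
    · exact Or.imp (r1 z p).1 (r2 z p).1
    · exact Or.imp (r1 z p).2 (r2 z p).2
    · exact id) with t | t
  · exact n (t (Or.inl rfl) (Or.inr rfl))
  · obtain ⟨c, c1, c2, c3⟩ := h2 (g y) (g' y)
    exact (t c1).elim c2 c3

theorem Prm.perm (h : Prm X S) {p q : K → ℝ} (hp : Function.Injective p) (hq : Function.Injective q)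
    (hX : ∀ a b, X.Adj a b ↔ p a < p b ∧ q b < q a ∨ p b < p a ∧ q a < q b)
    (r : ℕ) (x : Fin r → K) (hx : ∀ i, x i ∈ S)
    (hg : ∀ i, ∃ g : X ≃g X, g '' S = S ∧ (∀ j < i, g (x j) = x j) ∧ g (x i) ≠ x i) : r ≤ 3 := by
  have := h.bound (T := Prop × Prop) (fun S' g =>
    (∀ a ∈ S', ∀ b ∈ S', p a < p b ∧ q b < q a ↔ p (g a) < p (g b) ∧ q (g b) < q (g a),
      ∀ a ∈ S', ∀ b ∈ S', p a < p b ∧ q a < q b ↔ p (g a) < p (g b) ∧ q (g a) < q (g b)))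
    (fun S' h1 h2 g g' b b' e y hy => ?_) r x hx hg
  · exact Nat.le_of_lt_succ (by simpa using this)
  have o : Ori X S' fun a b => p a < p b ∧ q b < q a :=
    ⟨fun a _ b _ => hX a b, fun a _ b _ c _ s t => ⟨s.1.trans t.1, t.2.trans s.2⟩⟩
  have o' : Ori Xᶜ S' fun a b => p a < p b ∧ q a < q b := by
    refine ⟨fun a _ b _ => ?_, fun a _ b _ c _ s t => ⟨s.1.trans t.1, s.2.trans t.2⟩⟩
    rw [SimpleGraph.compl_adj, hX]
    constructor
    · rintro ⟨s, t⟩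
      rcases lt_or_gt_of_ne (hp.ne s) with u | u <;> rcases lt_or_gt_of_ne (hq.ne s) with v | v
      exacts [Or.inl ⟨u, v⟩, (t (Or.inl ⟨u, v⟩)).elim, (t (Or.inr ⟨u, v⟩)).elim, Or.inr ⟨u, v⟩]
    · rintro (s | s)
      · exact ⟨fun t => s.1.ne (congrArg p t),
          fun t => t.elim (fun u => u.2.not_gt s.2) fun u => u.1.not_gt s.1⟩
      · exact ⟨fun t => s.1.ne' (congrArg p t),
          fun t => t.elim (fun u => u.1.not_gt s.1) fun u => u.2.not_gt s.2⟩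
  have s := h1.same o b.1 (fun _ _ => g.map_rel_iff) b'.1 (fun _ _ => g'.map_rel_iff)
    (iff_of_eq (congrArg Prod.fst e))
  have s' := h1.compl.same o' b.1 (iso_compl g) b'.1 (iso_compl g') (iff_of_eq (congrArg Prod.snd e))
  have d : ∀ a b, p a < p b ↔ p a < p b ∧ q b < q a ∨ p a < p b ∧ q a < q b := fun a b =>
    ⟨fun u => (lt_or_gt_of_ne (hq.ne fun t : a = b => u.ne (congrArg p t))).symm.imp
      (And.intro u) (And.intro u), fun u => u.elim And.left And.left⟩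
  have r1 := rank_eq (φ := p) (t := p (g y)) (t' := p (g' y)) b b' fun z hz => by
    rw [d, d (g' z), s z hz y hy, s' z hz y hy]
  exact hp (le_antisymm (not_lt.1 fun u => lt_irrefl _ ((r1 _ (b'.1 hy)).1 u))
    (not_lt.1 fun u => lt_irrefl _ ((r1 _ (b.1 hy)).2 u)))

end Pool.Agent.Lib.MP_528c50_co.Cs
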