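import Mathlib

/-! Splits of graphs: if every proper split is crossed, then all pairs are splits. -/

namespace Pool.Agent.Lib.MP_528c50_co.Cs

variable {K : Type} (X : SimpleGraph K)

/-- The edges between `A` and `S \ A` form a complete bipartite graph on their ends. -/
def Spl (S A : Set K) : Prop :=
  ∀ a ∈ A, ∀ a' ∈ A, ∀ b ∈ S \ A, ∀ b' ∈ S \ A, X.Adj a b → X.Adj a' b' → X.Adj a b'

/-- At least four vertices and no split with two vertices on each side. -/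
def Prm (S : Set K) : Prop :=
  4 ≤ S.ncard ∧ ∀ A ⊆ S, Spl X S A → A.Subsingleton ∨ (S \ A).Subsingleton

/-- The graph induced on `S` is connected. -/
def Con (S : Set K) : Prop :=
  ∀ A : Set K, (∃ a ∈ S, a ∈ A) → (∃ b ∈ S, b ∉ A) → ∃ a ∈ S, ∃ b ∈ S, a ∈ A ∧ b ∉ A ∧ X.Adj a b

variable {X} {S A B : Set K}

theorem Spl.of_sub (h : A.Subsingleton) : Spl X S A := fun _ a _ a' _ _ _ _ _ e => h a' a ▸ e

theorem Spl.compl (h : Spl X S A) : Spl X S (S \ A) := fun a p a' p' b q b' q' e e' =>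
  (h b' (not_not.1 fun r => q'.2 ⟨q'.1, r⟩) b (not_not.1 fun r => q.2 ⟨q.1, r⟩) a' p' a p
    e'.symm e.symm).symm

theorem Spl.congr (h : Spl X S A) (e : ∀ z, z ∈ A ↔ z ∈ B) : Spl X S B :=
  (Set.ext e : A = B) ▸ h

theorem Spl.union (hS : Con X S) (hA : Spl X S A) (hB : Spl X S B) (h : ∃ z ∈ S, z ∈ A ∧ z ∈ B) :
    Spl X S (A ∪ B) := by
  have key : ∀ {A B : Set K}, Spl X S A → Spl X S B → (∃ z ∈ S, z ∈ A ∧ z ∈ B) →
      ∀ a ∈ A, ∀ a' ∈ B, ∀ b ∈ S \ (A ∪ B), ∀ b' ∈ S \ (A ∪ B),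
        X.Adj a b → X.Adj a' b' → X.Adj a b' := by
    intro A B hA hB h a p a' p' b q b' q' e e'
    have q1 : b ∈ S \ A := ⟨q.1, fun r => q.2 (Or.inl r)⟩
    have q2 : b ∈ S \ B := ⟨q.1, fun r => q.2 (Or.inr r)⟩
    have q3 : b' ∈ S \ A := ⟨q'.1, fun r => q'.2 (Or.inl r)⟩
    have q4 : b' ∈ S \ B := ⟨q'.1, fun r => q'.2 (Or.inr r)⟩
    obtain ⟨u, -, v, hv, hu, hv', f⟩ := hS (A ∩ B) h ⟨b, q.1, fun r => q1.2 r.1⟩
    refine hA a p u hu.1 b q1 b' q3 e ?_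
    by_cases c : v ∈ A
    · exact hB u hu.2 a' p' v ⟨hv, fun r => hv' ⟨c, r⟩⟩ b' q4 f e'
    · exact hB u hu.2 a' p' b q2 b' q4 (hA u hu.1 a p v ⟨hv, c⟩ b q1 f e) e'
  rintro a (p | p) a' (p' | p') b q b' q' e e'
  · exact hA a p a' p' b ⟨q.1, fun r => q.2 (Or.inl r)⟩ b' ⟨q'.1, fun r => q'.2 (Or.inl r)⟩ e e'
  · exact key hA hB h a p a' p' b q b' q' e e'
  · exact key hB hA (h.imp fun _ r => ⟨r.1, r.2.symm⟩) a p a' p' b (Set.union_comm A B ▸ q) b'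
      (Set.union_comm A B ▸ q') e e'
  · exact hB a p a' p' b ⟨q.1, fun r => q.2 (Or.inr r)⟩ b' ⟨q'.1, fun r => q'.2 (Or.inr r)⟩ e e'

theorem Spl.inter (hS : Con X S) (hA : Spl X S A) (hB : Spl X S B) (h0 : A ⊆ S)
    (h : ∃ z ∈ S, z ∉ A ∧ z ∉ B) : Spl X S (A ∩ B) := by
  obtain ⟨z, a, b, c⟩ := h
  refine (hA.compl.union hS hB.compl ⟨z, a, ⟨a, b⟩, a, c⟩).compl.congr fun w => ?_
  have := @h0 w
  simp only [Set.mem_diff, Set.mem_union, Set.mem_inter_iff]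
  tauto

theorem Spl.diff (hS : Con X S) (hA : Spl X S A) (hB : Spl X S B) (h0 : A ⊆ S)
    (h : ∃ z ∈ S, z ∉ A ∧ z ∈ B) : Spl X S (A \ B) := by
  obtain ⟨z, a, b, c⟩ := h
  refine (hA.inter hS hB.compl h0 ⟨z, a, b, fun r => r.2 c⟩).congr fun w => ?_
  have := @h0 w
  simp only [Set.mem_diff, Set.mem_inter_iff]
  tauto

theorem Spl.trans (hS : Con X S) {x y z : K} (hx : x ∈ S) (hy : y ∈ S) (hz : z ∈ S)
    (h1 : Spl X S {x, y}) (h2 : Spl X S {y, z}) : Spl X S {x, z} := by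
  have key : ∀ {x z : K}, x ∈ S → z ∈ S → x ≠ z → x ≠ y → z ≠ y → Spl X S {x, y} →
      Spl X S {y, z} → ∀ b ∈ S \ {x, z}, ∀ b' ∈ S \ {x, z},
        X.Adj x b → X.Adj z b' → X.Adj x b' := by
    intro x z hx hz xz xy zy h1 h2 b q b' q' e e'
    have bx : b ≠ x := fun r => q.2 (Or.inl r)
    have bz : b ≠ z := fun r => q.2 (Or.inr r)
    have cx : b' ≠ x := fun r => q'.2 (Or.inl r)
    have cz : b' ≠ z := fun r => q'.2 (Or.inr r)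
    have m : ∀ {u v w : K}, w ∈ S → w ≠ u → w ≠ v → w ∈ S \ {u, v} := fun a b c =>
      ⟨a, fun r => r.elim b c⟩
    have l : ∀ u v : K, u ∈ ({u, v} : Set K) := fun _ _ => Or.inl rfl
    have r : ∀ u v : K, v ∈ ({u, v} : Set K) := fun _ _ => Or.inr rfl
    have xm : x ∈ S \ {y, z} := m hx xy xz
    have zm : z ∈ S \ {x, y} := m hz xz.symm zy
    rcases eq_or_ne b y with by' | by'
    · rcases eq_or_ne b' y with cy | cy
      · rwa [cy, ← by']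
      rw [by'] at e
      exact h1 x (l _ _) y (r _ _) z zm b' (m q'.1 cx cy)
        (h2 z (r _ _) y (l _ _) b' (m q'.1 cy cz) x xm e' e.symm).symm
        (h2 y (l _ _) z (r _ _) x xm b' (m q'.1 cy cz) e.symm e')
    rcases eq_or_ne b' y with cy | cy
    · rw [cy] at e' ⊢
      exact (h2 y (l _ _) z (r _ _) b (m q.1 by' bz) x xm
        (h1 y (r _ _) x (l _ _) z zm b (m q.1 bx by') e'.symm e)
        (h1 x (l _ _) y (r _ _) b (m q.1 bx by') z zm e e'.symm).symm).symm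
    refine h1 x (l _ _) y (r _ _) b (m q.1 bx by') b' (m q'.1 cx cy) e ?_
    obtain ⟨u, -, w, hw, hu, hw', f⟩ := hS {y} ⟨y, hy, rfl⟩ ⟨x, hx, xy⟩
    rw [show u = y from hu] at f
    rcases eq_or_ne w x with wx | wx
    · exact h2 y (l _ _) z (r _ _) x xm b' (m q'.1 cy cz) (wx ▸ f) e'
    · exact h2 y (l _ _) z (r _ _) b (m q.1 by' bz) b' (m q'.1 cy cz)
        (h1 y (r _ _) x (l _ _) w (m hw wx hw') b (m q.1 bx by') f e) e'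
  rcases eq_or_ne x y with rfl | xy
  · exact h2
  rcases eq_or_ne z y with rfl | zy
  · exact h1
  rcases eq_or_ne x z with rfl | xz
  · exact Spl.of_sub (by simp)
  rintro a (rfl | rfl) a' (p | p) b q b' q' e e'
  · exact p ▸ e'
  · exact key hx hz xz xy zy h1 h2 b q b' q' e (p ▸ e')
  · exact key hz hx xz.symm zy xy (Set.pair_comm y a ▸ h2) (Set.pair_comm x y ▸ h1) b
      (Set.pair_comm x a ▸ q) b' (Set.pair_comm x a ▸ q') e (p ▸ e')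
  · exact (show a' = a from p) ▸ e'

variable (X) in
/-- Every proper split is crossed by a split. -/
def Crs (S : Set K) : Prop :=
  ∀ A ⊆ S, Spl X S A → A.Nontrivial → (S \ A).Nontrivial → ∃ B, Spl X S B ∧
    (∃ z ∈ A, z ∈ B) ∧ (∃ z ∈ A, z ∉ B) ∧ (∃ z ∈ S \ A, z ∈ B) ∧ ∃ z ∈ S \ A, z ∉ B

theorem Crs.at (h : Crs X S) (h0 : A ⊆ S) (h1 : Spl X S A) (h2 : A.Nontrivial)
    (h3 : (S \ A).Nontrivial) {x : K} (hx : x ∈ S) : ∃ B, Spl X S B ∧ x ∈ B ∧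
    (∃ z ∈ A, z ∈ B) ∧ (∃ z ∈ A, z ∉ B) ∧ ∃ z ∈ S \ A, z ∉ B := by
  obtain ⟨B, hB, p, ⟨b, b1, b2⟩, ⟨c, c1, c2⟩, q⟩ := h A h0 h1 h2 h3
  by_cases e : x ∈ B
  · exact ⟨B, hB, e, p, ⟨b, b1, b2⟩, q⟩
  · obtain ⟨a, a1, a2⟩ := p
    exact ⟨S \ B, hB.compl, ⟨hx, e⟩, ⟨b, b1, h0 b1, b2⟩, ⟨a, a1, fun r => r.2 a2⟩,
      c, c1, fun r => r.2 c2⟩

theorem Crs.partner [Finite K] (hS : Con X S) (h : Crs X S) {x : K} (n : ℕ) :
    ∀ A ⊆ S, A.ncard ≤ n → Spl X S A → A.Nontrivial → (S \ A).Nontrivial → x ∈ A →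
      ∃ y ∈ A, y ≠ x ∧ Spl X S {x, y} := by
  induction n with
  | zero =>
    intro A _ hn _ _ _ hx
    have := (Set.ncard_pos (Set.toFinite A)).2 ⟨x, hx⟩
    omega
  | succ n ih =>
    intro A h0 hn h1 h2 h3 hx
    have step : ∀ B, Spl X S B → x ∈ B → (∃ z ∈ A, z ≠ x ∧ z ∈ B) → (∃ z ∈ A, z ∉ B) →
        (∃ z ∈ S \ A, z ∉ B) → ∃ y ∈ A, y ≠ x ∧ Spl X S {x, y} := by
      rintro B hB xB ⟨a, a1, a2, a3⟩ ⟨b, b1, b2⟩ ⟨c, c1, c2⟩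
      have lt : (A ∩ B).ncard < A.ncard :=
        Set.ncard_lt_ncard ⟨Set.inter_subset_left, fun r => b2 (r b1).2⟩ (Set.toFinite A)
      obtain ⟨y, y1, y2⟩ := ih (A ∩ B) (fun _ r => h0 r.1) (by omega)
        (h1.inter hS hB h0 ⟨c, c1.1, c1.2, c2⟩) ⟨a, ⟨a1, a3⟩, x, ⟨hx, xB⟩, a2⟩
        (h3.mono fun _ r => ⟨r.1, fun s => r.2 s.1⟩) ⟨hx, xB⟩
      exact ⟨y, y1.1, y2⟩
    by_cases e : (A \ {x}).Nontrivial
    · obtain ⟨B, hB, p, q, ⟨c, c1, c2⟩, t⟩ := h A h0 h1 h2 h3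
      have two : ∀ B, Spl X S B → x ∈ B → (∃ z ∈ A, z ∉ B) → (∃ z ∈ S \ A, z ∈ B) →
          (∃ z ∈ S \ A, z ∉ B) → ∃ y ∈ A, y ≠ x ∧ Spl X S {x, y} := by
        rintro B hB xB q ⟨c, c1, c2⟩ t
        by_cases f : ∃ z ∈ A, z ≠ x ∧ z ∈ B
        · exact step B hB xB f q t
        have s : Spl X S (A \ {x}) := (h1.diff hS hB h0 ⟨c, c1.1, c1.2, c2⟩).congr fun z =>
          ⟨fun r => ⟨r.1, fun u => r.2 ((show z = x from u) ▸ xB)⟩,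
            fun r => ⟨r.1, fun u => f ⟨z, r.1, r.2, u⟩⟩⟩
        obtain ⟨B', hB', x', ⟨a, a1, a2⟩, ⟨b, b1, b2⟩, d, d1, d2⟩ :=
          h.at (fun _ r => h0 r.1) s e (h3.mono fun _ r => ⟨r.1, fun s => r.2 s.1⟩) (h0 hx)
        exact step B' hB' x' ⟨a, a1.1, a1.2, a2⟩ ⟨b, b1.1, b2⟩
          ⟨d, ⟨d1.1, fun r => d1.2 ⟨r, fun u => d2 ((show d = x from u) ▸ x')⟩⟩, d2⟩
      by_cases xB : x ∈ B
      · exact two B hB xB q ⟨c, c1, c2⟩ t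
      · obtain ⟨a, a1, a2⟩ := p
        obtain ⟨d, d1, d2⟩ := t
        exact two (S \ B) hB.compl ⟨h0 hx, xB⟩ ⟨a, a1, fun r => r.2 a2⟩ ⟨d, d1, d1.1, d2⟩
          ⟨c, c1, fun r => r.2 c2⟩
    · obtain ⟨y, y1, y2⟩ := h2.exists_ne x
      refine ⟨y, y1, y2, h1.congr fun z => ⟨fun r => ?_, ?_⟩⟩
      · by_cases u : z = x
        · exact Or.inl u
        · exact Or.inr (Set.not_nontrivial_iff.1 e ⟨r, u⟩ ⟨y1, y2⟩)
      · rintro (rfl | rfl)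
        · exact hx
        · exact y1

theorem Spl.of_pairs [Finite K] (hS : Con X S) {x : K} (hx : x ∈ S) (T : Set K) :
    (∀ y ∈ T, Spl X S {x, y}) → Spl X S (insert x T) := by
  induction T, Set.toFinite T using Set.Finite.induction_on with
  | empty => exact fun _ => Spl.of_sub (by simp)
  | @insert y T _ _ ih =>
    intro h
    refine ((h y (Or.inl rfl)).union hS (ih fun z r => h z (Or.inr r))
      ⟨x, hx, Or.inl rfl, Or.inl rfl⟩).congr fun z => ?_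
    simp only [Set.mem_union, Set.mem_insert_iff, Set.mem_singleton_iff]
    tauto

theorem Crs.dich [Finite K] (hS : Con X S) (h : Crs X S) :
    Prm X S ∨ ∀ x ∈ S, ∀ z ∈ S, Spl X S {x, z} := by
  by_cases hp : ∀ A ⊆ S, Spl X S A → A.Subsingleton ∨ (S \ A).Subsingleton
  · refine (le_or_gt 4 S.ncard).imp (fun a => ⟨a, hp⟩) fun a x hx z hz => ?_
    rcases eq_or_ne x z with rfl | e
    · exact Spl.of_sub (by simp)
    have s : ({x, z} : Set K) ⊆ S := by rintro _ (rfl | rfl) <;> assumption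
    have c := Set.ncard_diff_add_ncard_of_subset s (Set.toFinite S)
    rw [Set.ncard_pair e] at c
    have t : (S \ {x, z}).Subsingleton := (Set.ncard_le_one_iff_subsingleton).1 (by omega)
    exact (Spl.of_sub t).compl.congr fun w =>
      ⟨fun r => not_not.1 fun u => r.2 ⟨r.1, u⟩, fun r => ⟨s r, fun u => u.2 r⟩⟩
  refine Or.inr fun x hx z hz => ?_
  by_contra hn
  simp only [not_forall, not_or, Set.not_subsingleton_iff] at hp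
  obtain ⟨M, m0, m1, m2, m3⟩ := hp
  have par : ∀ x ∈ S, ∃ y ∈ S, y ≠ x ∧ Spl X S {x, y} := fun x hx => by
    by_cases e : x ∈ M
    · obtain ⟨y, a, b⟩ := h.partner hS _ M m0 le_rfl m1 m2 m3 e
      exact ⟨y, m0 a, b⟩
    · obtain ⟨y, a, b⟩ := h.partner hS (x := x) _ (S \ M) Set.sdiff_subset le_rfl m1.compl m3
        (m2.mono fun _ r => ⟨m0 r, fun s => s.2 r⟩) ⟨hx, e⟩
      exact ⟨y, a.1, b⟩
  obtain ⟨Q, hQ⟩ : ∃ Q : Set K, ∀ y, y ∈ Q ↔ y ∈ S ∧ Spl X S {x, y} := ⟨{y | _}, fun _ => Iff.rfl⟩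
  have xQ : x ∈ Q := (hQ x).2 ⟨hx, Spl.of_sub (by simp)⟩
  have cl : ∀ a ∈ Q, ∀ b ∈ S, Spl X S {a, b} → b ∈ Q := fun a p b q r =>
    (hQ b).2 ⟨q, Spl.trans hS hx ((hQ a).1 p).1 q ((hQ a).1 p).2 r⟩
  have sub : ∀ T ⊆ Q, T.Nonempty → Spl X S T := by
    rintro T hT ⟨t, ht⟩
    have t1 := (hQ t).1 (hT ht)
    refine (Spl.of_pairs hS t1.1 T fun y r => Spl.trans hS t1.1 hx ((hQ y).1 (hT r)).1
      (Set.pair_comm x t ▸ t1.2) ((hQ y).1 (hT r)).2).congr fun w => ?_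
    exact ⟨fun r => r.elim (fun u => u ▸ ht) id, Or.inr⟩
  have zQ : z ∉ Q := fun r => hn ((hQ z).1 r).2
  obtain ⟨x', x1, x2, x3⟩ := par x hx
  obtain ⟨z', z1, z2, z3⟩ := par z hz
  obtain ⟨B, hB, ⟨a, a1, a2⟩, ⟨b, b1, b2⟩, ⟨c, c1, c2⟩, d, d1, d2⟩ :=
    h Q (fun y r => ((hQ y).1 r).1) (sub Q le_rfl ⟨x, xQ⟩) ⟨x', cl x xQ x' x1 x3, x, xQ, x2⟩
      ⟨z', ⟨z1, fun r => zQ (cl z' r z hz (Set.pair_comm z z' ▸ z3))⟩, z, ⟨hz, zQ⟩, z2⟩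
  have aS := ((hQ a).1 a1).1
  have bS := ((hQ b).1 b1).1
  have ba : b ≠ a := fun r => b2 (r ▸ a2)
  have s1 : Spl X S (S ∩ B) := hB.compl.compl.congr fun w =>
    ⟨fun r => ⟨r.1, not_not.1 fun u => r.2 ⟨r.1, u⟩⟩, fun r => ⟨r.1, fun u => u.2 r.2⟩⟩
  obtain ⟨y, y1, y2, y3⟩ := h.partner hS (x := a) _ ((S ∩ B) \ (Q \ {a})) (fun _ r => r.1.1) le_rfl
    (s1.diff hS (sub _ Set.sdiff_subset ⟨b, b1, ba⟩) Set.inter_subset_left
      ⟨b, bS, fun r => b2 r.2, b1, ba⟩)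
    ⟨a, ⟨⟨aS, a2⟩, fun r => r.2 rfl⟩, c, ⟨⟨c1.1, c2⟩, fun r => c1.2 r.1⟩, fun r => c1.2 (r ▸ a1)⟩
    ⟨b, ⟨bS, fun r => b2 r.1.2⟩, d, ⟨d1.1, fun r => d2 r.1.2⟩, fun r => d1.2 (r ▸ b1)⟩
    ⟨⟨aS, a2⟩, fun r => r.2 rfl⟩
  exact y1.2 ⟨cl a a1 y y1.1.1 y3, y2⟩

end Pool.Agent.Lib.MP_528c50_co.Cs
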