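import Pool.Agent.Lib.MP_528c50_co.Cs2.Rec
import Pool.Agent.Lib.MP_528c50_co.Cs3.Spl

/-! Automorphisms that are glued along splits. -/

namespace Pool.Agent.Lib.MP_528c50_co.Cs

open Finset Function

variable {K : Type} (X : SimpleGraph K)

/-- A split of the whole graph. -/
def Sp (A : Set K) : Prop :=
  ∀ a ∈ A, ∀ a' ∈ A, ∀ b ∉ A, ∀ b' ∉ A, X.Adj a b → X.Adj a' b' → X.Adj a b'

/-- `z` is a vertex of `D` with a neighbour outside. -/
def Fr (D : Finset K) (z : K) : Prop := z ∈ D ∧ ∃ w ∉ D, X.Adj z w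

variable {X} {Γ : Subgroup (Equiv.Perm K)}

theorem Sp.spl {A : Set K} (h : Sp X A) (S : Set K) : Spl X S (S ∩ A) :=
  fun a p a' p' b q b' q' => h a p.2 a' p'.2 b (fun r => q.2 ⟨q.1, r⟩) b' fun r => q'.2 ⟨q'.1, r⟩

theorem Sp.compl {A : Set K} (h : Sp X A) : Sp X Aᶜ := fun a p a' p' b q b' q' e e' =>
  (h b' (not_not.1 q') b (not_not.1 q) a' p' a p e'.symm e.symm).symm

theorem Fr.twin {D : Finset K} (h : Sp X D) {a a' w : K} (ha : Fr X D a) (ha' : a' ∈ D)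
    (hw : w ∉ D) (e : X.Adj a' w) : X.Adj a w := by
  obtain ⟨p, b, q, f⟩ := ha
  exact h a p a' ha' b q w hw f e

variable (hΓ : ∀ g : Equiv.Perm K, g ∈ Γ ↔ ∀ a b, X.Adj (g a) (g b) ↔ X.Adj a b)

include hΓ

theorem Sp.map {A B : Set K} (h : Sp X A) {g : Equiv.Perm K} (hg : g ∈ Γ)
    (e : ∀ z, z ∈ B ↔ g z ∈ A) : Sp X B := fun a p a' p' b q b' q' f f' =>
  ((hΓ g).1 hg _ _).1 (h _ ((e a).1 p) _ ((e a').1 p') _ (mt (e b).2 q) _ (mt (e b').2 q')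
    (((hΓ g).1 hg _ _).2 f) (((hΓ g).1 hg _ _).2 f'))

theorem Fr.map {D E : Finset K} {g : Equiv.Perm K} (hg : g ∈ Γ) (e : ∀ z, z ∈ D ↔ g z ∈ E) {z : K}
    (h : Fr X D z) : Fr X E (g z) := by
  obtain ⟨p, w, q, f⟩ := h
  exact ⟨(e z).1 p, g w, mt (e w).2 q, ((hΓ g).1 hg _ _).2 f⟩

theorem Sp.loc {D : Finset K} (h : Sp X D) {g : Equiv.Perm K} (hg : g ∈ Γ)
    (e : ∀ z, z ∈ D ↔ g z ∈ D) {a c : K} (p : a ∈ D) (q : c ∉ D) : X.Adj (g a) c ↔ X.Adj a c := by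
  refine ⟨fun f => ?_, fun f => Fr.twin h (Fr.map hΓ hg e ⟨p, c, q, f⟩) p q f⟩
  refine Fr.twin h ⟨p, g.symm c, fun r => q (by simpa using (e _).1 r), ?_⟩ ((e a).1 p) q f
  rw [← (hΓ g).1 hg]
  simpa using f

omit hΓ in
theorem exists_rep [Nonempty K] [DecidableEq K] (P : Finset K → K → Prop)
    (hP : ∀ g ∈ Γ, ∀ D E : Finset K, (∀ z, z ∈ D ↔ g z ∈ E) → ∀ z, P D z → P E (g z)) :
    ∃ rep : Finset K → K, (∀ D, (∃ z, P D z) → P D (rep D)) ∧
      ∀ g ∈ Γ, ∀ D E : Finset K, (∀ z, z ∈ D ↔ g z ∈ E) →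
        ∃ k ∈ Γ, (∀ z, z ∈ D ↔ k z ∈ E) ∧ k (rep D) = rep E := by
  let R : Finset K → Finset K → Prop := fun D B => ∃ g ∈ Γ, ∀ z, z ∈ B ↔ g z ∈ D
  have h0 : ∀ D, R D (Classical.epsilon (R D)) := fun D =>
    Classical.epsilon_spec (p := R D) ⟨D, 1, Γ.one_mem, fun _ => Iff.rfl⟩
  choose t ht e using h0
  refine ⟨fun D => t D (Classical.epsilon (P (Classical.epsilon (R D)))), fun D ⟨z, hz⟩ => ?_,
    fun g hg D E a => ?_⟩
  · refine hP _ (ht D) _ _ (e D) _ (Classical.epsilon_spec ⟨(t D)⁻¹ z, ?_⟩)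
    exact hP _ (Γ.inv_mem (ht D)) _ _ (fun w => by simpa using (e D ((t D)⁻¹ w)).symm) z hz
  · have b : R D = R E := funext fun B => propext
      ⟨fun ⟨k, hk, c⟩ => ⟨g * k, Γ.mul_mem hg hk, fun z => (c z).trans (a _)⟩,
        fun ⟨k, hk, c⟩ => ⟨g⁻¹ * k, Γ.mul_mem (Γ.inv_mem hg) hk, fun z => (c z).trans (by
          simpa using (a (g⁻¹ (k z))).symm)⟩⟩
    refine ⟨t E * (t D)⁻¹, Γ.mul_mem (ht E) (Γ.inv_mem (ht D)), fun z => ?_, by simp [b]⟩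
    rw [Equiv.Perm.mul_apply, ← e E, ← b, e D]
    simp

variable [Fintype K] [DecidableEq K]

theorem reglue (cl : K → Finset K) (h1 : ∀ z, z ∈ cl z) (h2 : ∀ z, ∀ w ∈ cl z, cl w = cl z)
    (h3 : ∀ z, Sp X (cl z)) (u : Finset K → Equiv.Perm K) (hu : ∀ z, u (cl z) ∈ Γ)
    (h4 : ∀ z w, w ∈ cl z ↔ u (cl z) w ∈ cl z) : ∃ h ∈ Γ, ∀ z, h z = u (cl z) z := by
  have m : ∀ z, cl (u (cl z) z) = cl z := fun z => h2 z _ ((h4 z z).1 (h1 z))
  have fi : Injective fun z => u (cl z) z := fun z w (e : u (cl z) z = u (cl w) w) => by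
    have a : cl z = cl w := by rw [← m z, e, m w]
    rw [a] at e
    exact (u _).injective e
  refine ⟨Equiv.ofBijective _ (Finite.injective_iff_bijective.1 fi), (hΓ _).2 fun z w => ?_,
    fun _ => rfl⟩
  rw [Equiv.ofBijective_apply, Equiv.ofBijective_apply]
  by_cases a : cl z = cl w
  · rw [a]
    exact (hΓ _).1 (hu w) z w
  · rw [(h3 z).loc hΓ (hu z) (h4 z) (h1 z) (fun r => a ((h2 z _ r).symm.trans (m w))), X.adj_comm,
      (h3 w).loc hΓ (hu w) (h4 w) (h1 w) (fun r => a (h2 w _ r)), X.adj_comm]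

theorem glue₂ {g : Equiv.Perm K} (hg : g ∈ Γ) {A B : Finset K} (hAB : ∀ z, z ∈ A ↔ g z ∈ B)
    (hd : A = B ∨ Disjoint A B)
    (out : ∀ a ∈ A, ∀ c, c ∉ A → c ∉ B → (X.Adj (g a) c ↔ X.Adj a c))
    (mid : ∀ a ∈ A, ∀ y ∈ A, g y ∉ A → (X.Adj (g a) y ↔ X.Adj a (g y))) :
    ∃ h ∈ Γ, (∀ z ∈ A, h z = g z) ∧ ∀ z, z ∉ A → z ∉ B → h z = z := by
  have ha := (hΓ g).1 hg
  obtain ⟨f, f1, f2, f3⟩ : ∃ f : K → K, (∀ z ∈ A, f z = g z) ∧
      (∀ z ∈ A, g z ∉ A → f (g z) = z) ∧ ∀ z, z ∉ A → z ∉ B → f z = z :=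
    ⟨fun z => if z ∈ A then g z else if z ∈ B then g.symm z else z, fun z a => if_pos a,
      fun z a b => by simp [b, (hAB z).1 a], fun z a b => by simp [a, b]⟩
  have tri : ∀ z, z ∈ A ∨ (∃ y ∈ A, g y ∉ A ∧ z = g y) ∨ (z ∉ A ∧ z ∉ B) := fun z => by
    by_cases a : z ∈ A
    · exact Or.inl a
    by_cases b : z ∈ B
    · obtain ⟨y, rfl⟩ := g.surjective z
      exact Or.inr (Or.inl ⟨y, (hAB y).2 b, a, rfl⟩)
    · exact Or.inr (Or.inr ⟨a, b⟩)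
  have dis : ∀ y ∈ A, g y ∉ A → ∀ z ∈ A, z ∉ B := fun y a b z c d => by
    rcases hd with e | e
    · exact b (e ▸ (hAB y).1 a)
    · exact disjoint_left.1 e c d
  have fi : Function.Injective f := fun x y e => by
    rcases tri x with a | ⟨x, a, a', rfl⟩ | ⟨a, a'⟩ <;>
      rcases tri y with b | ⟨y, b, b', rfl⟩ | ⟨b, b'⟩
    · exact g.injective (by rwa [f1 x a, f1 y b] at e)
    · rw [f1 x a, f2 y b b'] at e
      exact (dis y b b' y b (e ▸ (hAB x).1 a)).elim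
    · rw [f1 x a, f3 y b b'] at e
      exact (b' (e ▸ (hAB x).1 a)).elim
    · rw [f1 y b, f2 x a a'] at e
      exact (dis x a a' x a (e ▸ (hAB y).1 b)).elim
    · rw [f2 x a a', f2 y b b'] at e
      rw [e]
    · rw [f2 x a a', f3 y b b'] at e
      exact (b (e ▸ a)).elim
    · rw [f1 y b, f3 x a a'] at e
      exact (a' (e ▸ (hAB y).1 b)).elim
    · rw [f2 y b b', f3 x a a'] at e
      exact (a (e ▸ b)).elim
    · rwa [f3 x a a', f3 y b b'] at e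
  refine ⟨Equiv.ofBijective f (Finite.injective_iff_bijective.1 fi), (hΓ _).2 fun x y => ?_, f1, f3⟩
  rw [Equiv.ofBijective_apply, Equiv.ofBijective_apply]
  rcases tri x with a | ⟨x, a, a', rfl⟩ | ⟨a, a'⟩ <;>
    rcases tri y with b | ⟨y, b, b', rfl⟩ | ⟨b, b'⟩
  · rw [f1 x a, f1 y b, ha]
  · rw [f1 x a, f2 y b b', mid x a y b b']
  · rw [f1 x a, f3 y b b', out x a y b b']
  · rw [f1 y b, f2 x a a', X.adj_comm, mid y b x a a', X.adj_comm]
  · rw [f2 x a a', f2 y b b', ha]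
  · rw [f2 x a a', f3 y b b', out x a y b b']
  · rw [f1 y b, f3 x a a', X.adj_comm, out y b x a a', X.adj_comm]
  · rw [f2 y b b', f3 x a a', X.adj_comm, ← out y b x a a', X.adj_comm]
  · rw [f3 x a a', f3 y b b']

theorem Node.sw {U : Finset K} {ch : K → Finset K} (N : Node Γ U ch) (h1 : ∀ x ∈ U, Sp X (ch x))
    (h2 : ∀ x ∈ U, ∀ y ∈ U, Sp X ((ch x : Set K) ∪ ch y)) : Sw Γ U ch := by
  have out : ∀ g ∈ Γ, ∀ x ∈ U, g x ∈ U → g x ∉ ch x → ∀ a ∈ ch x, ∀ c, c ∉ ch x → c ∉ ch (g x) →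
      X.Adj a c → X.Adj (g a) c := by
    intro g hg x hx gx n a p c q r e
    have ha := (hΓ g).1 hg
    have i := N.inv g hg x hx gx
    have j := (i x hx).2
    have aE := (j a).1 p
    have aU := N.eq _ gx _ aE
    have aD : g a ∉ ch x := fun s => n (by
      rw [← (N.eq x hx _ s).2, aU.2]
      exact N.self _ gx)
    have fin : ∀ w, w ∉ ch x → w ∉ ch (g x) → X.Adj (g a) w → X.Adj (g a) c := fun w s t f =>
      h2 x hx _ gx (g a) (Or.inr aE) a (Or.inl p) w (fun v => v.elim s t) c (fun v => v.elim q r)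
        f e
    by_cases s : g c ∈ ch x
    · refine fin (g (g a)) (fun t => r ?_) (mt (j _).2 aD)
        ((ha _ _).2 (Fr.twin (h1 x hx) ⟨p, c, q, e⟩ s aD ((ha a c).2 e).symm))
      rw [← aU.2, ((i _ aU.1).2 c), (N.eq x hx _ t).2]
      exact s
    · exact fin (g c) s (mt (j c).2 q) ((ha a c).2 e)
  intro g hg x hx gx n
  have ha := (hΓ g).1 hg
  have j := (N.inv g hg x hx gx x hx).2
  have d : Disjoint (ch x) (ch (g x)) := disjoint_left.2 fun z a b => n (by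
    rw [← (N.eq x hx _ a).2, (N.eq _ gx _ b).2]
    exact N.self _ gx)
  have mid : ∀ a ∈ ch x, ∀ y ∈ ch x, X.Adj (g a) y → X.Adj a (g y) := fun a p y q e => by
    have aD : g a ∉ ch x := disjoint_right.1 d ((j a).1 p)
    have s : X.Adj a (g a) := by
      refine Fr.twin (h1 x hx) ⟨p, g.symm y, fun r => disjoint_left.1 d q ?_, ?_⟩ q aD e.symm
      · simpa using (j _).1 r
      · rw [← ha]
        simpa using e
    exact (Fr.twin (h1 _ gx) (Fr.map hΓ hg j ⟨q, g a, aD, e.symm⟩) ((j a).1 p)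
      (disjoint_left.1 d p) s.symm).symm
  refine glue₂ hΓ hg j (Or.inr d) (fun a p c q r => ⟨fun e => ?_, out g hg x hx gx n a p c q r⟩)
    fun a p y q _ => ⟨mid a p y q, fun e => (mid y q a p e.symm).symm⟩
  simpa using out g⁻¹ (Γ.inv_mem hg) (g x) gx (by simpa using hx)
    (by simpa using disjoint_left.1 d (N.self x hx)) (g a) ((j a).1 p) c r (by simpa using q) e

end Pool.Agent.Lib.MP_528c50_co.Cs
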