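import Pool.Agent.Lib.MP_528c50_co.Cs2.Eng

/-! Short bases: the bound with the exact constant of the argument. -/

namespace Pool.Agent.Lib.MP_528c50_co.Cs

open Finset Function

variable {C K : Type} [Fintype K] [DecidableEq K] (F : Fo C) {Γ : Subgroup (Equiv.Perm K)}
  {c c' : K → C}

/-- Equal multisets of colours give equivalent colourings if irredundant bases are short. -/
theorem Fo.of_irr₃ {l : ℕ} (hl : Irr Γ l) (h : F.Hyp Γ c c') (hm : F.mul c = F.mul c')
    (hk : (4 * l * (Nat.log 2 l + 4) + 1) ^ 2 + 2 ≤ (F.cards Γ c).card) : ∃ g ∈ Γ, c = c' ∘ g := by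
  classical
  by_contra hne
  have hN : (F.sup c').card = (F.sup c).card := by rw [← F.card_mul, ← F.card_mul, hm]
  have h1 : cnt Γ c (F.sup c) c ≠ cnt Γ c' (F.sup c) c := by
    have e1 : cnt Γ c' (F.sup c) c = 0 := by
      refine card_eq_zero.2 (filter_eq_empty_iff.2 fun g _ ⟨hg, e⟩ => hne ⟨g, hg, ?_⟩)
      have e2 : F.sup c = F.sup (c' ∘ g) := eq_of_subset_of_card_le
        (fun x hx => F.mem_sup.2 (by rw [comp_apply, e x hx]; exact F.mem_sup.1 hx))
        (by rw [← F.card_mul, F.mul_comp, F.card_mul, hN])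
      funext x
      by_cases hx : x ∈ F.sup c
      · exact (e x hx).symm
      · exact (not_not.1 (mt F.mem_sup.2 hx)).trans
          (not_not.1 (mt (F.mem_sup (c := c' ∘ g)).2 (e2 ▸ hx))).symm
    rw [e1]
    exact (card_pos.2 ⟨1, mem_filter.2 ⟨mem_univ _, Γ.one_mem, fun _ _ => rfl⟩⟩).ne'
  have h2 := all_traces (F.sup c) c c' (fun T hT => F.cnt_eq h (card_lt_card hT)
    (hN ▸ card_lt_card hT) c) h1
  have h3 := trace_card hl (F.sup c) (F.sup c) c c
    (fun x hx y e => F.mem_sup.2 (e ▸ F.mem_sup.1 hx))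
    ((F.sup c).powerset.filter (IsTr Γ (F.sup c) c c)) fun X hX => (mem_filter.1 hX).2
  have h4 := trace_card hl (F.sup c) (F.sup c') c c'
    (fun x hx y e => F.mem_sup.2 (e ▸ F.mem_sup.1 hx))
    ((F.sup c).powerset.filter (IsTr Γ (F.sup c) c c')) fun X hX => (mem_filter.1 hX).2
  have h5 : (F.sup c).card < 4 * l * (Nat.log 2 l + 4) + 2 := by
    refine num_bound ?_
    have h6 : (F.sup c).powerset ⊆ (F.sup c).powerset.filter (IsTr Γ (F.sup c) c c) ∪
        (F.sup c).powerset.filter (IsTr Γ (F.sup c) c c') := fun X hX => by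
      simpa [hX, ← and_or_left] using h2 X (mem_powerset.1 hX)
    have h7 := (card_le_card h6).trans (card_union_le _ _)
    rw [hN] at h4
    rw [card_powerset] at h7
    omega
  have h6 : ∀ x, ∀ s ∈ F.del (c x), s ≠ F.o → ∃ z, c z = s := by
    intro x s hs h0
    by_contra h7
    obtain ⟨x', s', hs', g, hg, e, e'⟩ := F.common (F.cards_of_hyp Γ h) hs
    have h8 : c' x' ≠ s := fun h9 => h7 (F.mem_mul.1 (hm ▸ F.mem_mul.2 ⟨h0, x', h9⟩)).2
    have h9 : g x = x' := by
      by_contra h10
      have h11 := congrFun e x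
      rw [update_self, comp_apply, update_of_ne h10] at h11
      exact h7 (F.mem_mul.1 (hm ▸ F.mem_mul.2 ⟨h0, g x, h11.symm⟩)).2
    have h10 := congrFun e x
    rw [update_self, comp_apply, h9, update_self] at h10
    rw [hm, ← h10, add_right_inj, Multiset.singleton_inj] at e'
    refine hne ⟨g, hg, funext fun z => ?_⟩
    rcases eq_or_ne z x with rfl | h11
    · rw [comp_apply, h9, e']
    · have h12 := congrFun e z
      rwa [update_of_ne h11, comp_apply, update_of_ne fun h13 => h11
        (g.injective (h13.trans h9.symm))] at h12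
  have h7 : ∀ m x, F.sz (c x) = m → Icc 1 m ⊆ (F.sup c).image fun z => F.sz (c z) := by
    intro m
    induction m with
    | zero => simp
    | succ m ih =>
      intro x hx j hj
      have h8 : c x ≠ F.o := fun h0 => by
        rw [h0, F.sz_o] at hx
        omega
      rw [mem_Icc] at hj
      rcases eq_or_ne j (m + 1) with rfl | h9
      · exact mem_image.2 ⟨x, F.mem_sup.2 h8, hx⟩
      obtain ⟨s, hs⟩ := F.exists_del h8
      have h10 := F.sz_del _ s hs
      obtain ⟨z, hz⟩ := h6 x s hs fun h0 => by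
        rw [h0, F.sz_o] at h10
        omega
      exact ih z (by rw [hz]; omega) (mem_Icc.2 (by omega))
  have h8 : ∀ r ∈ (F.mul c).map F.sz, r ≤ (F.sup c).card := fun r hr => by
    obtain ⟨t, ht, rfl⟩ := Multiset.mem_map.1 hr
    obtain ⟨-, x, rfl⟩ := F.mem_mul.1 ht
    simpa using (card_le_card (h7 _ x rfl)).trans card_image_le
  have h9 := (F.leaves_le (Γ := Γ) c).trans (Multiset.sum_le_card_nsmul _ _ h8)
  rw [Multiset.card_map, F.card_mul, smul_eq_mul] at h9
  have h10 := Nat.mul_self_le_mul_self (Nat.le_of_lt_succ h5)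
  rw [sq] at hk
  omega

end Pool.Agent.Lib.MP_528c50_co.Cs
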