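import Pool.Agent.Lib.MP_528c50_co.Cs3.Nod
import Pool.Agent.Lib.MP_528c50_co.Cs.Main

/-! Graphs with many endpoints whose prime parts have short irredundant sequences. -/

namespace Pool.Agent.Lib.MP_528c50_co.Cs

open Finset Function

section

variable {W K L : Type} [DecidableEq W] {G : SimpleGraph W} {A : Finset W}

theorem mainW₃ [Fintype K] [DecidableEq K] [Fintype L] (hc : ∀ v, ∃ x ∈ core G, G.Reachable v x)
    {B : Finset W} (hA : ∀ u ∈ A, ∀ w, G.Adj u w → w ∈ A) (hB : ∀ u ∈ B, ∀ w, G.Adj u w → w ∈ B)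
    {ι : K → W} (hi : Injective ι) (hι : ∀ u, (∃ x, ι x = u) ↔ u ∈ A ∧ u ∈ core G)
    {e e' : L → W} (he : Injective e) (he1 : ∀ u, (∃ v, e v = u) ↔ u ∈ A ∧ ∃! w, G.Adj u w)
    (he' : Injective e') (he1' : ∀ u, (∃ v, e' v = u) ↔ u ∈ B ∧ ∃! w, G.Adj u w)
    (hf : ∀ v, ∃ f, Iso G.Adj f (A.erase (e v)) (B.erase (e' v))) {l : ℕ}
    (hl : ∀ S : Set K, Prm (G.comap ι) S → ∀ (r : ℕ) (x : Fin r → K), (∀ i, x i ∈ S) →
      (∀ i, ∃ g ∈ autG G ι, g '' S = S ∧ (∀ j < i, g (x j) = x j) ∧ g (x i) ≠ x i) → r ≤ l)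
    (hk : (4 * l * (Nat.log 2 l + 4) + 1) ^ 2 + 2 ≤ Fintype.card L) :
    ∃ f, Iso G.Adj f A B := by
  obtain ⟨P, h⟩ := exists_skel hc
  obtain ⟨C, F, T, mk, hmk, hd⟩ := h.par.exists_fo
  have l1 : ∀ v, ∃! w, G.Adj (e v) w := fun v => ((he1 _).1 ⟨v, rfl⟩).2
  have l2 : ∀ v, ∃! w, G.Adj (e' v) w := fun v => ((he1' _).1 ⟨v, rfl⟩).2
  obtain ⟨v0⟩ : Nonempty L := Fintype.card_pos_iff.1 (lt_of_lt_of_le (by positivity) hk)
  obtain ⟨f0, hf0⟩ := hf v0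
  obtain ⟨m0, hj, hκ⟩ := mw_core h hA hB hi hι (l1 v0) (l2 v0) hf0
  have ha : ∀ a b, G.Adj ((f0 ∘ ι) a) ((f0 ∘ ι) b) ↔ G.Adj (ι a) (ι b) := fun a b =>
    hf0.2 _ (m0 a) _ (m0 b)
  generalize f0 ∘ ι = κ at hj hκ ha
  obtain ⟨b, d, s1, s2⟩ := mw_side h hA hi hι he he1 F mk hd
  obtain ⟨b', d', s1', s2'⟩ := mw_side h hB hj hκ he' he1' F mk hd
  obtain ⟨hy, hcard⟩ := F.hyp_of_index (Γ := autG G ι)
    (c := fun x => mk ((tree P A (ι x)).erase (ι x)))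
    (c' := fun x => mk ((tree P B (κ x)).erase (κ x))) b b' d d' s1 s1' fun v => by
      obtain ⟨f, hf⟩ := hf v
      obtain ⟨m, hj1, hκ1⟩ := mw_core h hA hB hi hι (l1 v) (l2 v) hf
      choose g hg using fun x => (hκ _).2 ((hκ1 _).1 ⟨x, rfl⟩)
      have gi : Injective g := fun x y a => hj1 (by rw [← hg, ← hg, a])
      refine ⟨Equiv.ofBijective g (Finite.injective_iff_bijective.1 gi), fun x y => ?_,
        funext fun x => ?_⟩
      · refine (ha _ _).symm.trans ?_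
        rw [Equiv.ofBijective_apply, Equiv.ofBijective_apply, hg, hg]
        exact hf.2 _ (m x) _ (m y)
      · rw [comp_apply, s2, s2', Equiv.ofBijective_apply, hg]
        exact (hmk _ _).2 ⟨f, ((h.iso (mw_good_erase h hA (l1 v)) (mw_good_erase h hB (l2 v))
          hf).tree (m x)).erase (self_mem_tree (m x))⟩
  obtain ⟨g, hg, e⟩ := F.spl_main (X := G.comap ι) (fun _ => Iff.rfl) hl (F.del_inj T) hy
    (hcard ▸ hk)
  refine mw_final h hA hB hi hι (κ := κ ∘ g) (hj.comp g.injective) (fun u => ?_)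
    (fun a b => (ha _ _).trans (hg a b)) fun x => (hmk _ _).1 (congrFun e x)
  rw [← hκ]
  exact ⟨fun ⟨x, a⟩ => ⟨g x, a⟩, fun ⟨x, a⟩ => ⟨g.symm x, by simpa using a⟩⟩

end

variable {V V' : Type} {G : SimpleGraph V} {H : SimpleGraph V'}

theorem main₃ [Finite V] [Finite V'] (l : ℕ) (hc : ∀ v, ∃ x ∈ core G, G.Reachable v x)
    (hl : ∀ S : Set (core G), Prm (G.induce (core G)) S → ∀ (r : ℕ) (x : Fin r → core G),
      (∀ i, x i ∈ S) → (∀ i, ∃ g : G.induce (core G) ≃g G.induce (core G),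
        g '' S = S ∧ (∀ j < i, g (x j) = x j) ∧ g (x i) ≠ x i) → r ≤ l)
    (hk : (4 * l * (Nat.log 2 l + 4) + 1) ^ 2 + 2 ≤ {v | ∃! w, G.Adj v w}.ncard)
    (σ : {v // ∃! w, G.Adj v w} ≃ {v // ∃! w, H.Adj v w})
    (hσ : ∀ v, Nonempty (G.induce {v.1}ᶜ ≃g H.induce {(σ v).1}ᶜ)) : Nonempty (G ≃g H) := by
  classical
  have := Fintype.ofFinite V
  have := Fintype.ofFinite V'
  have hk' : (4 * l * (Nat.log 2 l + 4) + 1) ^ 2 + 2 ≤ Fintype.card {v // ∃! w, G.Adj v w} := by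
    rw [← Nat.card_eq_fintype_card]
    exact hk
  obtain ⟨v0⟩ : Nonempty {v // ∃! w, G.Adj v w} :=
    Fintype.card_pos_iff.1 (lt_of_lt_of_le (by positivity) hk')
  obtain ⟨φ0⟩ := hσ v0
  have hc' := rooted_of_card hc v0.2 (σ v0).2 φ0
  obtain ⟨A, hA⟩ : ∃ A : Finset (V ⊕ V'), ∀ u, u ∈ A ↔ ∃ a, Sum.inl a = u :=
    ⟨univ.image Sum.inl, by simp⟩
  obtain ⟨B, hB⟩ : ∃ B : Finset (V ⊕ V'), ∀ u, u ∈ B ↔ ∃ a, Sum.inr a = u :=
    ⟨univ.image Sum.inr, by simp⟩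
  have hX : (G ⊕g H).comap (fun x : core G => Sum.inl x.1) = G.induce (core G) := by
    ext a b
    simp
  obtain ⟨f, hf⟩ := mainW₃ (G := G ⊕g H) (K := core G) (A := A) (B := B) (l := l)
    (ι := fun x => Sum.inl x.1) (e := fun v : {v // ∃! w, G.Adj v w} => Sum.inl v.1)
    (e' := fun v => Sum.inr (σ v).1) (by
      rintro (v | v)
      · obtain ⟨x, hx, r⟩ := hc v
        exact ⟨_, (core_sum_inl G H x).2 hx, r.map SimpleGraph.Embedding.sumInl.toHom⟩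
      · obtain ⟨x, hx, r⟩ := hc' v
        exact ⟨_, (core_sum_inr G H x).2 hx, r.map SimpleGraph.Embedding.sumInr.toHom⟩)
    (fun u hu w a => by
      obtain ⟨u, rfl⟩ := (hA u).1 hu
      cases w with
      | inl w => exact (hA _).2 ⟨w, rfl⟩
      | inr w => simp at a)
    (fun u hu w a => by
      obtain ⟨u, rfl⟩ := (hB u).1 hu
      cases w with
      | inl w => simp at a
      | inr w => exact (hB _).2 ⟨w, rfl⟩)
    (fun x y a => Subtype.ext (Sum.inl_injective a))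
    (fun u => by
      rw [hA]
      constructor
      · rintro ⟨x, rfl⟩
        exact ⟨⟨_, rfl⟩, (core_sum_inl G H _).2 x.2⟩
      · rintro ⟨⟨a, rfl⟩, b⟩
        exact ⟨⟨a, (core_sum_inl G H _).1 b⟩, rfl⟩)
    (fun x y a => Subtype.ext (Sum.inl_injective a))
    (fun u => by
      rw [hA]
      constructor
      · rintro ⟨x, rfl⟩
        exact ⟨⟨_, rfl⟩, (main_inl _).2 x.2⟩
      · rintro ⟨⟨a, rfl⟩, b⟩
        exact ⟨⟨a, (main_inl _).1 b⟩, rfl⟩)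
    (fun x y a => σ.injective (Subtype.ext (Sum.inr_injective a)))
    (fun u => by
      rw [hB]
      constructor
      · rintro ⟨x, rfl⟩
        exact ⟨⟨_, rfl⟩, (main_inr _).2 (σ x).2⟩
      · rintro ⟨⟨a, rfl⟩, b⟩
        exact ⟨σ.symm ⟨a, (main_inr _).1 b⟩, by simp⟩)
    (fun v => (hσ v).elim fun φ => main_card hA hB φ)
    (fun S hS r x hi hx => hl S (hX ▸ hS) r x hi fun i => by
      obtain ⟨g, hg, a⟩ := hx i
      exact ⟨⟨g, fun {a b} => by simpa using hg a b⟩, a⟩) hk'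
  exact main_back hA hB hf

end Pool.Agent.Lib.MP_528c50_co.Cs
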