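import Pool.Agent.Lib.MP_528c50_co.Cs3.Glu
import Pool.Agent.Lib.MP_528c50_co.Cs3.Irr

/-! The nodes of the split decomposition. -/

namespace Pool.Agent.Lib.MP_528c50_co.Cs

open Finset Function

variable {K : Type} (X : SimpleGraph K) (Γ : Subgroup (Equiv.Perm K))

/-- `C` is a component. -/
structure Cmp (C : Finset K) : Prop where
  cl : ∀ z ∈ C, ∀ w, X.Adj z w → w ∈ C
  con : Con X C
  inv : ∀ g ∈ Γ, ∀ x ∈ C, g x ∈ C → ∀ z, z ∈ C ↔ g z ∈ C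

/-- `M` is a small side of a split of `C` that no split crosses. -/
structure Gd (C M : Finset K) : Prop where
  sub : M ⊆ C
  sp : Sp X M
  sm : 2 * M.card ≤ C.card
  st : ∀ N : Set K, Sp X N → (∀ z ∈ M, z ∉ N) ∨ (∀ z ∈ M, z ∈ N) ∨ (∀ z ∈ C, z ∈ N → z ∈ M) ∨
    ∀ z ∈ C, z ∉ N → z ∈ M

/-- `ch x` is the largest good proper subset of `U` that contains `x`. -/
def Mx (C U : Finset K) (ch : K → Finset K) : Prop :=
  ∀ x ∈ U, Gd X C (ch x) ∧ ch x ⊂ U ∧ x ∈ ch x ∧ ∀ M, Gd X C M → M ⊂ U → x ∈ M → M ⊆ ch x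

variable {X Γ} {C U M M' : Finset K} {ch : K → Finset K}

theorem Gd.lam [DecidableEq K] (h : Gd X C M) (h' : Gd X C M') {x : K} (hx : x ∈ M) (hx' : x ∈ M') :
    M ⊆ M' ∨ M' ⊆ M := by
  rcases h.st M' h'.sp with a | a | a | a
  · exact (a x hx hx').elim
  · exact Or.inl a
  · exact Or.inr fun z b => a z (h'.sub b) b
  · have a1 : C ⊆ M ∪ M' := fun z b => mem_union.2 ((em (z ∈ M')).symm.imp_left (a z b))
    have a2 := card_le_card a1
    have a3 := card_union_add_card_inter M M'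
    have a4 := card_pos.2 ⟨x, mem_inter.2 ⟨hx, hx'⟩⟩
    have := h.sm
    have := h'.sm
    omega

theorem Gd.single {x : K} (hx : x ∈ C) (h : 2 ≤ C.card) : Gd X C {x} := by
  refine ⟨by simpa using hx, fun a p a' p' _ _ _ _ _ e => ?_, by simpa using h, fun N _ => ?_⟩
  · rw [mem_coe, mem_singleton] at p p'
    rwa [p, ← p']
  · by_cases e : x ∈ N
    · exact Or.inr (Or.inl (by simpa using e))
    · exact Or.inl (by simpa using e)

theorem exists_mx [DecidableEq K] (hU : U ⊆ C) (h2 : 2 ≤ U.card) : ∃ ch, Mx X C U ch := by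
  classical
  have : ∀ x, ∃ D, x ∈ U → Gd X C D ∧ D ⊂ U ∧ x ∈ D ∧ ∀ M, Gd X C M → M ⊂ U → x ∈ M → M ⊆ D := by
    intro x
    by_cases hx : x ∈ U
    · obtain ⟨D, a, b⟩ := exists_max_image (U.powerset.filter fun M => Gd X C M ∧ M ⊂ U ∧ x ∈ M)
        card ⟨{x}, mem_filter.2 ⟨by simpa using hx, Gd.single (hU hx) (h2.trans (card_le_card hU)),
          ⟨by simpa using hx, fun r => by
            have := card_le_card r
            rw [card_singleton] at this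
            omega⟩, mem_singleton_self x⟩⟩
      obtain ⟨-, a1, a2, a3⟩ := mem_filter.1 a
      refine ⟨D, fun _ => ⟨a1, a2, a3, fun M p q r => (p.lam a1 r a3).elim id fun s => ?_⟩⟩
      exact (eq_of_subset_of_card_le s (b M (mem_filter.2 ⟨mem_powerset.2 q.1, p, q, r⟩))).ge
    · exact ⟨∅, fun a => (hx a).elim⟩
  choose ch h using this
  exact ⟨ch, h⟩

theorem Mx.eq [DecidableEq K] (h : Mx X C U ch) {x : K} (hx : x ∈ U) {y : K} (hy : y ∈ ch x) :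
    y ∈ U ∧ ch y = ch x := by
  obtain ⟨a1, a2, a3, a4⟩ := h x hx
  obtain ⟨b1, b2, b3, b4⟩ := h y (a2.1 hy)
  have := b4 _ a1 a2 hy
  exact ⟨a2.1 hy, Subset.antisymm (a4 _ b1 b2 (this a3)) this⟩

variable (hΓ : ∀ g : Equiv.Perm K, g ∈ Γ ↔ ∀ a b, X.Adj (g a) (g b) ↔ X.Adj a b)

include hΓ

theorem Gd.map (h : Gd X C M) {g : Equiv.Perm K} (hg : g ∈ Γ) (hC : ∀ z, z ∈ C ↔ g z ∈ C)
    (e : ∀ z, z ∈ M' ↔ g z ∈ M) : Gd X C M' := by
  refine ⟨fun z a => (hC z).2 (h.sub ((e z).1 a)), h.sp.map hΓ hg e,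
    card_equiv g e ▸ h.sm, fun N hN => ?_⟩
  refine (h.st {z | g⁻¹ z ∈ N} (hN.map hΓ (Γ.inv_mem hg) fun _ => Iff.rfl)).imp (fun a z b => ?_)
    (Or.imp (fun a z b => ?_) (Or.imp (fun a z b c => ?_) fun a z b c => ?_))
  · simpa using a _ ((e z).1 b)
  · simpa using a _ ((e z).1 b)
  · exact (e z).2 (a _ ((hC z).1 b) (by simpa using c))
  · exact (e z).2 (a _ ((hC z).1 b) (by simpa using c))

variable [DecidableEq K]

theorem Cmp.invU (hC : Cmp X Γ C) (hU : U = C ∨ Gd X C U) {g : Equiv.Perm K} (hg : g ∈ Γ) {x : K}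
    (hx : x ∈ U) (gx : g x ∈ U) (z : K) : z ∈ U ↔ g z ∈ U := by
  rcases hU with rfl | hU
  · exact hC.inv g hg x hx gx z
  have m : ∀ z, z ∈ U.map g.symm.toEmbedding ↔ g z ∈ U := by simp
  have a := hU.map hΓ hg (hC.inv g hg x (hU.sub hx) (hU.sub gx)) m
  rw [← m]
  rcases hU.lam a hx ((m x).2 gx) with b | b
  · rw [← eq_of_subset_of_card_le b (by simp)]
  · rw [eq_of_subset_of_card_le b (by simp)]

variable [Fintype K]

theorem Mx.node (h : Mx X C U ch) (hC : Cmp X Γ C) (hU : U = C ∨ Gd X C U) : Node Γ U ch := by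
  have UC : U ⊆ C := hU.elim (fun e => e.le) Gd.sub
  have one : ∀ g ∈ Γ, ∀ x ∈ U, g x ∈ U → ∀ y ∈ U, ∀ z, g z ∈ ch (g y) → z ∈ ch y := by
    intro g hg x hx gx y hy z hz
    have i := hC.invU hΓ hU hg hx gx
    obtain ⟨b1, b2, b3, -⟩ := h _ ((i y).1 hy)
    have m : ∀ z, z ∈ (ch (g y)).map g.symm.toEmbedding ↔ g z ∈ ch (g y) := by simp
    refine (h y hy).2.2.2 _ (b1.map hΓ hg (hC.inv g hg x (UC hx) (UC gx)) m)
      ⟨fun w a => (i w).2 (b2.1 ((m w).1 a)), fun a => b2.2 fun w b => ?_⟩ ((m y).2 b3) ((m z).2 hz)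
    obtain ⟨w, rfl⟩ := g.surjective w
    exact (m w).1 (a ((i w).2 b))
  have inv : ∀ g ∈ Γ, ∀ x ∈ U, g x ∈ U → ∀ y ∈ U, g y ∈ U ∧ ∀ z, z ∈ ch y ↔ g z ∈ ch (g y) := by
    intro g hg x hx gx y hy
    have gy := (hC.invU hΓ hU hg hx gx y).1 hy
    exact ⟨gy, fun z => ⟨fun a => one g⁻¹ (Γ.inv_mem hg) _ gx (by simpa using hx) _ gy _
      (by simpa using a), one g hg x hx gx y hy z⟩⟩
  refine ⟨fun x hx => (h x hx).2.2.1, fun x hx y hy => h.eq hx hy, inv, fun g hg x hx gx => ?_⟩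
  have j := (inv g hg x hx (h.eq hx gx).1 x hx).2
  rw [(h.eq hx gx).2] at j
  obtain ⟨k, hk, k1, k2⟩ := glue₂ hΓ hg j (Or.inl rfl)
    (fun a p c q _ => (h x hx).1.sp.loc hΓ hg j p q) fun a _ y q r => (r ((j y).1 q)).elim
  exact ⟨k, hk, k1, fun z a => k2 z a a⟩

theorem Mx.dich (h : Mx X C U ch) (hC : Cmp X Γ C) (hU : U = C ∨ Gd X C U) (hn : U.Nonempty)
    {l : ℕ} (hl : ∀ S : Set K, Prm X S → ∀ (r : ℕ) (x : Fin r → K), (∀ i, x i ∈ S) →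
      (∀ i, ∃ g ∈ Γ, g '' S = S ∧ (∀ j < i, g (x j) = x j) ∧ g (x i) ≠ x i) → r ≤ l) :
    Irr (grp Γ U ch) l ∨ Sw Γ U ch := by
  classical
  have N := h.node hΓ hC hU
  obtain ⟨x₀, hx₀⟩ := hn
  have : Nonempty K := ⟨x₀⟩
  have UC : U ⊆ C := hU.elim (fun e => e.le) Gd.sub
  have spU : Sp X U := by
    rcases hU with rfl | hU
    · exact fun a p _ _ b q _ _ e _ => (q (hC.cl a p b e)).elim
    · exact hU.sp
  obtain ⟨cl, c1, c2⟩ : ∃ cl : K → Finset K, (∀ z ∈ U, cl z = ch z) ∧ ∀ z, z ∉ U → cl z = Uᶜ :=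
    ⟨fun z => if z ∈ U then ch z else Uᶜ, fun z a => if_pos a, fun z a => if_neg a⟩
  have h1 : ∀ z, z ∈ cl z := fun z => by
    by_cases a : z ∈ U
    · exact c1 z a ▸ N.self z a
    · exact c2 z a ▸ mem_compl.2 a
  have h2 : ∀ z, ∀ w ∈ cl z, cl w = cl z := fun z w b => by
    by_cases a : z ∈ U
    · rw [c1 z a] at b ⊢
      rw [c1 w (N.eq z a w b).1, (N.eq z a w b).2]
    · rw [c2 z a] at b ⊢
      exact c2 w (mem_compl.1 b)
  have h3 : ∀ z, Sp X (cl z) := fun z => by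
    by_cases a : z ∈ U
    · exact c1 z a ▸ (h z a).1.sp
    · rw [c2 z a, coe_compl]
      exact spU.compl
  obtain ⟨rep, r1, r2⟩ := exists_rep (Γ := Γ) (Fr X) fun g hg D E e z => Fr.map hΓ hg e
  have fr : ∀ z ∈ C, Fr X (cl z) (rep (cl z)) := fun z hz => r1 _ (by
    have : ∃ w ∈ C, w ∉ cl z := by
      by_cases a : z ∈ U
      · obtain ⟨w, p, q⟩ := exists_of_ssubset (h z a).2.1
        exact ⟨w, UC p, c1 z a ▸ q⟩
      · exact ⟨x₀, UC hx₀, c2 z a ▸ by simpa using hx₀⟩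
    obtain ⟨a, -, b, -, p, q, e⟩ := hC.con (cl z) ⟨z, hz, h1 z⟩ this
    exact ⟨a, p, b, q, e⟩)
  have rc : ∀ z ∈ C, cl (rep (cl z)) = cl z := fun z hz => h2 z _ (fr z hz).1
  have rC : ∀ z ∈ C, rep (cl z) ∈ C := fun z hz => by
    by_cases a : z ∈ U
    · exact UC ((h z a).2.1.1 (c1 z a ▸ (fr z hz).1))
    · obtain ⟨-, w, p, q⟩ := fr z hz
      rw [c2 z a] at p
      exact hC.cl w (UC (by simpa using p)) _ q.symm
  have ri : ∀ z ∈ C, ∀ w ∈ C, rep (cl z) = rep (cl w) → cl z = cl w := fun z a w b e => by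
    rw [← rc z a, e, rc w b]
  have up : ∀ z ∈ C, ∀ w ∈ C, cl z ≠ cl w → X.Adj z w → X.Adj (rep (cl z)) (rep (cl w)) :=
    fun z a w b n e => (Fr.twin (h3 w) (fr w b) (h1 w) (fun r => n ((rc z a).symm.trans (h2 w _ r)))
      (Fr.twin (h3 z) (fr z a) (h1 z) (fun r => n (h2 z w r).symm) e).symm).symm
  have down : ∀ z ∈ C, ∀ w ∈ C, cl z ≠ cl w → Fr X (cl z) z → Fr X (cl w) w →
      X.Adj (rep (cl z)) (rep (cl w)) → X.Adj z w := fun z a w b n p q e =>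
    (Fr.twin (h3 w) q (fr w b).1 (fun r => n (h2 w z r))
      (Fr.twin (h3 z) p (fr z a).1 (fun r => n ((h2 z _ r).symm.trans (rc w b))) e).symm).symm
  obtain ⟨S, hS⟩ : ∃ S : Set K, ∀ s, s ∈ S ↔ ∃ z ∈ C, rep (cl z) = s := ⟨{s | _}, fun _ => Iff.rfl⟩
  have inS : ∀ z ∈ C, rep (cl z) ∈ S := fun z a => (hS _).2 ⟨z, a, rfl⟩
  have con : Con X S := by
    rintro A ⟨a, p, p'⟩ ⟨b, q, q'⟩
    obtain ⟨z, z1, rfl⟩ := (hS a).1 p
    obtain ⟨w, w1, rfl⟩ := (hS b).1 q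
    obtain ⟨u, u1, v, v1, u2, v2, e⟩ := hC.con {z | rep (cl z) ∈ A} ⟨z, z1, p'⟩ ⟨w, w1, q'⟩
    exact ⟨_, inS u u1, _, inS v v1, u2, v2, up u u1 v v1 (fun r => v2 (by
      rw [Set.mem_ofPred_eq, ← r]
      exact u2)) e⟩
  have lift : ∀ A, Spl X S A → Sp X {z | z ∈ C ∧ rep (cl z) ∈ A} := by
    intro A hA a p a' p' b q b' q' e e'
    have bC := hC.cl a p.1 b e
    have bC' := hC.cl a' p'.1 b' e'
    have n : ∀ {u v}, rep (cl u) ∈ A → rep (cl v) ∉ A → cl u ≠ cl v := fun s t r => t (r ▸ s)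
    have s : rep (cl b) ∉ A := fun r => q ⟨bC, r⟩
    have s' : rep (cl b') ∉ A := fun r => q' ⟨bC', r⟩
    exact down a p.1 b' bC' (n p.2 s') ⟨h1 a, b, fun r => n p.2 s (h2 a b r).symm, e⟩
      ⟨h1 b', a', fun r => n p'.2 s' (h2 b' a' r), e'.symm⟩
      (hA _ p.2 _ p'.2 _ ⟨inS b bC, s⟩ _ ⟨inS b' bC', s'⟩ (up a p.1 b bC (n p.2 s) e)
        (up a' p'.1 b' bC' (n p'.2 s') e'))
  have half : ∀ A ⊆ S, Spl X S A → A.Nontrivial → (S \ A).Nontrivial →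
      (∀ z ∈ C, rep (cl z) ∈ A → z ∈ U) →
      2 * (C.filter fun z => rep (cl z) ∈ A).card ≤ C.card ∨ Gd X C U → ∃ B, Spl X S B ∧
      (∃ z ∈ A, z ∈ B) ∧ (∃ z ∈ A, z ∉ B) ∧ (∃ z ∈ S \ A, z ∈ B) ∧ ∃ z ∈ S \ A, z ∉ B := by
    intro A h0 hA ⟨a, p, a', p', n⟩ ⟨b, q, b', q', n'⟩ hu hs
    obtain ⟨M, hM⟩ : ∃ M, M = C.filter fun z => rep (cl z) ∈ A := ⟨_, rfl⟩
    have m : ∀ z, z ∈ M ↔ z ∈ C ∧ rep (cl z) ∈ A := fun z => by rw [hM, mem_filter]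
    have MU : M ⊆ U := fun z r => hu z ((m z).1 r).1 ((m z).1 r).2
    obtain ⟨u, u1, rfl⟩ := (hS a).1 (h0 p)
    obtain ⟨u', u1', rfl⟩ := (hS a').1 (h0 p')
    obtain ⟨v, v1, rfl⟩ := (hS b).1 q.1
    obtain ⟨v', v1', rfl⟩ := (hS b').1 q'.1
    have pr : M ⊂ U := ⟨MU, fun r => n' (by
      rw [c2 v fun s => q.2 ((m v).1 (r s)).2, c2 v' fun s => q'.2 ((m v').1 (r s)).2])⟩
    have ng : ¬ Gd X C M := fun r => n (by
      have uU := hu u u1 p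
      rw [h2 u u' (c1 u uU ▸ (h u uU).2.2.2 M r pr ((m u).2 ⟨u1, p⟩) ((m u').2 ⟨u1', p'⟩))])
    have sm : 2 * M.card ≤ C.card := hs.elim (hM ▸ id) fun r =>
      (Nat.mul_le_mul_left 2 (card_le_card MU)).trans r.sm
    obtain ⟨T, hT, t⟩ : ∃ T : Set K, Sp X T ∧ ¬ ((∀ z ∈ M, z ∉ T) ∨ (∀ z ∈ M, z ∈ T) ∨
        (∀ z ∈ C, z ∈ T → z ∈ M) ∨ ∀ z ∈ C, z ∉ T → z ∈ M) := by
      by_contra r
      refine ng ⟨fun z s => ((m z).1 s).1, ?_, sm, fun T hT => not_not.1 fun s => r ⟨T, hT, s⟩⟩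
      rw [show (M : Set K) = {z | z ∈ C ∧ rep (cl z) ∈ A} from Set.ext m]
      exact lift A hA
    simp only [not_or, not_forall, not_not] at t
    obtain ⟨⟨z1, a1, b1⟩, ⟨z2, a2, b2⟩, ⟨z3, a3, b3, d3⟩, z4, a4, b4, d4⟩ := t
    have dif : ∀ z, ∀ s ∈ M, ∀ t ∈ C, t ∉ M → s ∈ cl z → t ∉ cl z := fun z s s1 t t1 t2 s2 t3 =>
      t2 ((m t).2 ⟨t1, by rw [h2 z t t3, ← h2 z s s2]; exact ((m s).1 s1).2⟩)
    have sat : ∀ z ∈ C, (z ∈ T ↔ rep (cl z) ∈ T) := fun z hz => by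
      have two : ((∀ w ∈ C, w ∈ cl z → w ∉ T) ∨ ∀ w ∈ C, w ∈ cl z → w ∈ T) := by
        by_cases a : z ∈ U
        · rw [c1 z a]
          rcases (h z a).1.st T hT with s | s | s | s
          · exact Or.inl fun w _ => s w
          · exact Or.inr fun w _ => s w
          · exact (dif z z1 a1 z3 a3 d3 (c1 z a ▸ s _ ((m _).1 a1).1 b1) (c1 z a ▸ s _ a3 b3)).elim
          · exact (dif z z2 a2 z4 a4 d4 (c1 z a ▸ s _ ((m _).1 a2).1 b2) (c1 z a ▸ s _ a4 b4)).elim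
        · rw [c2 z a]
          rcases (hU.resolve_left fun e => a (e ▸ hz)).st T hT with s | s | s | s
          · exact (s _ (MU a1) b1).elim
          · exact (b2 (s _ (MU a2))).elim
          · exact Or.inl fun w w1 w2 w3 => mem_compl.1 w2 (s w w1 w3)
          · exact Or.inr fun w w1 w2 => not_not.1 fun w3 => mem_compl.1 w2 (s w w1 w3)
      rcases two with s | s
      · exact iff_of_false (s z hz (h1 z)) (s _ (rC z hz) (fr z hz).1)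
      · exact iff_of_true (s z hz (h1 z)) (s _ (rC z hz) (fr z hz).1)
    have e1 := (m _).1 a1
    have e2 := (m _).1 a2
    exact ⟨S ∩ T, hT.spl S, ⟨_, e1.2, inS _ e1.1, (sat _ e1.1).1 b1⟩,
      ⟨_, e2.2, fun r => b2 ((sat _ e2.1).2 r.2)⟩,
      ⟨_, ⟨inS _ a3, fun r => d3 ((m _).2 ⟨a3, r⟩)⟩, inS _ a3, (sat _ a3).1 b3⟩,
      _, ⟨inS _ a4, fun r => d4 ((m _).2 ⟨a4, r⟩)⟩, fun r => b4 ((sat _ a4).2 r.2)⟩
  have crs : Crs X S := by
    intro A h0 hA n n'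
    have oth : (∀ z ∈ C, rep (cl z) ∉ A → z ∈ U) →
        2 * (C.filter fun z => rep (cl z) ∉ A).card ≤ C.card ∨ Gd X C U → ∃ B, Spl X S B ∧
        (∃ z ∈ A, z ∈ B) ∧ (∃ z ∈ A, z ∉ B) ∧ (∃ z ∈ S \ A, z ∈ B) ∧ ∃ z ∈ S \ A, z ∉ B := by
      intro hu hs
      have dd : S \ (S \ A) = A := Set.sdiff_sdiff_cancel_left h0
      obtain ⟨B, hB, b1, b2, b3, b4⟩ := half (S \ A) Set.sdiff_subset hA.compl n' (dd.symm ▸ n)
        (fun z a b => hu z a b.2) (hs.imp_left fun r => (Nat.mul_le_mul_left 2 (card_le_card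
          fun z a => by
            simp only [mem_filter] at a ⊢
            exact ⟨a.1, a.2.2⟩)).trans r)
      rw [dd] at b3 b4
      exact ⟨B, hB, b3, b4, b1, b2⟩
    rcases hU with e | e
    · have := card_filter_add_card_filter_not (s := C) fun z => rep (cl z) ∈ A
      rcases le_or_gt (2 * (C.filter fun z => rep (cl z) ∈ A).card) C.card with s | s
      · exact half A h0 hA n n' (fun z a _ => e ▸ a) (Or.inl s)
      · exact oth (fun z a _ => e ▸ a) (Or.inl (by omega))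
    · by_cases s : rep Uᶜ ∈ A
      · exact oth (fun z _ b => not_not.1 fun c => b (c2 z c ▸ s)) (Or.inr e)
      · exact half A h0 hA n n' (fun z _ b => not_not.1 fun c => s (c2 z c ▸ b)) (Or.inr e)
  refine (crs.dich con).imp (fun hp r D hD => ?_) fun hp => N.sw hΓ (fun x a => (h x a).1.sp)
    fun x a y b => ?_
  · choose y hy e using fun i => mem_image.1 (D i).2
    refine hl S hp r (fun i => rep (cl (y i))) (fun i => inS _ (UC (hy i))) fun i => ?_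
    obtain ⟨σ, ⟨g, hg, hσ⟩, h3', h4⟩ := hD i
    have gy : ∀ j, g (y j) ∈ (σ (D j)).1 := fun j => (hσ _ _).1 (e j ▸ N.self _ (hy j))
    have gU := (N.of_mem (gy i)).1
    have iU := hC.invU hΓ hU hg (hy i) gU
    have iC := hC.inv g hg _ (UC (hy i)) (UC gU)
    have ic : ∀ z w, w ∈ cl z ↔ g w ∈ cl (g z) := fun z w => by
      by_cases a : z ∈ U
      · rw [c1 z a, c1 _ ((iU z).1 a)]
        exact (N.inv g hg _ (hy i) gU z a).2 w
      · rw [c2 z a, c2 _ (mt (iU z).2 a), mem_compl, mem_compl, iU]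
    have ex : ∀ D : Finset K, ∃ k : Equiv.Perm K, ∀ z, cl z = D → k ∈ Γ ∧
        (∀ w, w ∈ cl z ↔ k w ∈ cl (g z)) ∧ k (rep (cl z)) = rep (cl (g z)) := fun D => by
      by_cases a : ∃ z, cl z = D
      · obtain ⟨z, rfl⟩ := a
        obtain ⟨k, hk, k1⟩ := r2 g hg _ _ (ic z)
        refine ⟨k, fun w b => ⟨hk, ?_⟩⟩
        rwa [b, h2 (g z) (g w) ((ic z w).1 (b ▸ h1 w))]
      · exact ⟨1, fun z b => (a ⟨z, b⟩).elim⟩
    choose k hk using ex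
    obtain ⟨f, hf, f1⟩ := reglue hΓ cl h1 h2 h3 (fun D => g⁻¹ * k D)
      (fun z => Γ.mul_mem (Γ.inv_mem hg) (hk _ z rfl).1) fun z w => by
        rw [(hk _ z rfl).2.1, ic z]
        simp
    have key : ∀ z ∈ C, (g * f) (rep (cl z)) = rep (cl (g z)) := fun z a => by
      rw [Equiv.Perm.mul_apply, f1, rc z a, ← (hk _ z rfl).2.2]
      simp
    have cg : ∀ j, cl (g (y j)) = (σ (D j)).1 := fun j =>
      (c1 _ (N.of_mem (gy j)).1).trans (N.of_mem (gy j)).2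
    have cy : ∀ j, cl (y j) = (D j).1 := fun j => (c1 _ (hy j)).trans (e j)
    refine ⟨g * f, Γ.mul_mem hg hf, Set.ext fun s => ⟨?_, fun a => ?_⟩, fun j hj => ?_, fun a => ?_⟩
    · rintro ⟨t, a, rfl⟩
      obtain ⟨z, b, rfl⟩ := (hS t).1 a
      exact key z b ▸ inS _ ((iC z).1 b)
    · obtain ⟨z, b, rfl⟩ := (hS s).1 a
      obtain ⟨z, rfl⟩ := g.surjective z
      exact ⟨_, inS z ((iC z).2 b), key z ((iC z).2 b)⟩
    · rw [key _ (UC (hy j)), cg, h3' j hj, cy]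
    · rw [key _ (UC (hy i))] at a
      exact h4 (Subtype.ext (by rw [← cg, ← cy, ri _ (UC gU) _ (UC (hy i)) a]))
  · refine (show (ch x : Set K) ∪ ch y = {z | z ∈ C ∧ rep (cl z) ∈ ({rep (cl x), rep (cl y)} :
      Set K)} from Set.ext fun z => ⟨?_, ?_⟩) ▸ lift _ (hp _ (inS x (UC a)) _ (inS y (UC b)))
    · rintro (p | p)
      · exact ⟨(h x a).1.sub p, Or.inl (by rw [h2 x z (c1 x a ▸ p)])⟩
      · exact ⟨(h y b).1.sub p, Or.inr (by rw [h2 y z (c1 y b ▸ p)]; rfl)⟩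
    · rintro ⟨p, q | q⟩
      · exact Or.inl (c1 x a ▸ ri z p x (UC a) q ▸ h1 z)
      · exact Or.inr (c1 y b ▸ ri z p y (UC b) q ▸ h1 z)

theorem cmp_cmp (x : K) : Cmp X Γ (cmp X none x) := by
  refine ⟨fun z a w e => mem_cmp.2 ((mem_cmp.1 a).step e (by simp) (by simp)), ?_,
    fun g hg y a b z => ?_⟩
  · rintro A ⟨a, p, p'⟩ ⟨b, q, q'⟩
    by_contra hn
    have p1 : Av X none x a := mem_cmp.1 p
    have r : Av X none a b := Relation.ReflTransGen.trans p1.symm (mem_cmp.1 q)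
    refine q' (r.ind (P := (· ∈ A)) p' fun u v s t e c d => not_not.1 fun w => hn ?_)
    have s' : Av X none x u := Relation.ReflTransGen.trans p1 s
    exact ⟨u, mem_cmp.2 s', v, mem_cmp.2 (s'.step e c d), t, w, e⟩
  · rw [← cmp_eq (mem_cmp.1 a), cmp_map hΓ hg, Option.map_none, cmp_eq (mem_cmp.1 b),
      cmp_eq (mem_cmp.1 a)]

variable {Co : Type} (F : Fo Co) {l : ℕ}
  (hl : ∀ S : Set K, Prm X S → ∀ (r : ℕ) (x : Fin r → K), (∀ i, x i ∈ S) →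
    (∀ i, ∃ g ∈ Γ, g '' S = S ∧ (∀ j < i, g (x j) = x j) ∧ g (x i) ≠ x i) → r ≤ l)

include hl

theorem Fo.rec_spl (hi : Injective F.del) (hC : Cmp X Γ C) (n : ℕ) : ∀ U : Finset K, U.card ≤ n →
    U.Nonempty → U = C ∨ Gd X C U → F.Rec Γ ((4 * l * (Nat.log 2 l + 4) + 1) ^ 2 + 2) U := by
  induction n with
  | zero =>
    intro U h1 h2 _
    have := card_pos.2 h2
    omega
  | succ n ih =>
    intro U h1 h2 hU
    rcases le_or_gt 2 U.card with h3 | h3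
    swap
    · obtain ⟨v, rfl⟩ := card_eq_one.1 (show U.card = 1 by have := card_pos.2 h2; omega)
      exact F.rec_single hi v
    obtain ⟨ch, h⟩ := exists_mx (X := X) (hU.elim (fun e => e.le) Gd.sub) h3
    have k3 : 3 ≤ (4 * l * (Nat.log 2 l + 4) + 1) ^ 2 + 2 := by
      nlinarith [Nat.zero_le (4 * l * (Nat.log 2 l + 4))]
    have sub : ∀ x ∈ U, F.Rec Γ ((4 * l * (Nat.log 2 l + 4) + 1) ^ 2 + 2) (ch x) := fun x hx =>
      ih _ (by have := card_lt_card (h x hx).2.1; omega) ⟨x, (h x hx).2.2.1⟩ (Or.inr (h x hx).1)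
    rcases h.dich hΓ hC hU h2 hl with a | a
    · exact (h.node hΓ hC hU).step F k3 (fun c c' b d e => (F.orb Γ).of_irr₃ a b e d) sub
    · exact (h.node hΓ hC hU).stepV F a k3 sub

theorem Fo.spl_main (hi : Injective F.del) {c c' : K → Co} (h : F.Hyp Γ c c')
    (hk : (4 * l * (Nat.log 2 l + 4) + 1) ^ 2 + 2 ≤ ∑ x, (F.del (c x)).card) :
    ∃ g ∈ Γ, c = c' ∘ g :=
  (cls_eq Γ).1 ((nodeT hΓ).1.stepV F (nodeT hΓ).2
    (by nlinarith [Nat.zero_le (4 * l * (Nat.log 2 l + 4))])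
    (fun x _ => F.rec_spl hΓ hl hi (cmp_cmp hΓ x) _ _ le_rfl ⟨x, cmp_self _ x⟩ (Or.inl rfl)) c c'
    (fun _ _ => mem_univ _) (fun _ _ => mem_univ _) (F.cards_of_hyp Γ h)
    (by rwa [F.card_cards]))

end Pool.Agent.Lib.MP_528c50_co.Cs
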